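import Mathlib

open MeasureTheory

namespace Pool.R874.Assoc

/-- A set valued map is continuous for the Vietoris topology, which on non-empty compact subsets of
a metrizable space is the Hausdorff topology. -/
def VietorisContinuous {Z X : Type*} [TopologicalSpace Z] [TopologicalSpace X] (S : Z → Set X) :
    Prop :=
  ∀ U : Set X, IsOpen U → IsOpen {z | S z ⊆ U} ∧ IsOpen {z | (S z ∩ U).Nonempty}

/-- A hypergroup in the sense of Dunkl, Jewett and Spector. The convolution of the point measures
at `a` and `b` is the probability measure `conv a b`. -/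
structure Hypergroup (D : Type*) [TopologicalSpace D] [MeasurableSpace D] [BorelSpace D] where
  conv : D → D → ProbabilityMeasure D
  conv_continuous : Continuous fun p : D × D => conv p.1 p.2
  conv_assoc : ∀ a b c : D, ∀ A : Set D, MeasurableSet A →
    ∫⁻ t, (conv t c : Measure D) A ∂(conv a b : Measure D) =
      ∫⁻ t, (conv a t : Measure D) A ∂(conv b c : Measure D)
  support_compact : ∀ a b : D, IsCompact (conv a b : Measure D).support
  support_continuous : VietorisContinuous fun p : D × D => (conv p.1 p.2 : Measure D).support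
  e : D
  e_conv : ∀ a : D, (conv e a : Measure D) = Measure.dirac a
  conv_e : ∀ a : D, (conv a e : Measure D) = Measure.dirac a
  inv : D → D
  inv_continuous : Continuous inv
  inv_inv : ∀ a : D, inv (inv a) = a
  e_mem_support : ∀ a b : D, e ∈ (conv a b : Measure D).support ↔ b = inv a
  conv_inv : ∀ a b : D, (conv a b : Measure D).map inv = (conv (inv b) (inv a) : Measure D)

/-- A left Haar measure of a hypergroup: a non-zero Radon measure `m` with
`∫ (∫ f d(δ_a * δ_b)) dm(b) = ∫ f dm` for all `a` and all continuous compactly supported `f`. -/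
def Hypergroup.IsLeftHaar {D : Type*} [TopologicalSpace D] [MeasurableSpace D] [BorelSpace D]
    (H : Hypergroup D) (m : Measure D) : Prop :=
  m ≠ 0 ∧ m.Regular ∧ ∀ (a : D) (f : D → ℝ), Continuous f → HasCompactSupport f →
    ∫ b, (∫ t, f t ∂(H.conv a b : Measure D)) ∂m = ∫ b, f b ∂m

/-- Condition 4 of a continuous association scheme for the measure `m`: it is a Radon measure with
full support and `∫ (T_{inv h} f) g dm = ∫ f (T_h g) dm` for continuous compactly supported
`f`, `g`. -/
def IsAdapted {X D : Type*} [TopologicalSpace X] [MeasurableSpace X] [BorelSpace X]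
    (K : X → D → ProbabilityMeasure X) (inv : D → D) (m : Measure X) : Prop :=
  m.Regular ∧ m.IsOpenPosMeasure ∧ ∀ (h : D) (f g : X → ℝ), Continuous f → HasCompactSupport f →
    Continuous g → HasCompactSupport g →
    ∫ x, (∫ y, f y ∂(K x (inv h) : Measure X)) * g x ∂m =
      ∫ x, f x * (∫ y, g y ∂(K x h : Measure X)) ∂m

/-- A continuous association scheme. -/
structure CAS (X D : Type*) [TopologicalSpace X] [MeasurableSpace X] [BorelSpace X]
    [TopologicalSpace D] [MeasurableSpace D] [BorelSpace D] where
  K : X → D → ProbabilityMeasure X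
  K_continuous : Continuous fun p : X × D => K p.1 p.2
  support_compact : ∀ (x : X) (h : D), IsCompact (K x h : Measure X).support
  support_continuous : VietorisContinuous fun p : X × D => (K p.1 p.2 : Measure X).support
  pi : X → X → D
  mem_support : ∀ (x y : X) (h : D), y ∈ (K x h : Measure X).support ↔ pi x y = h
  pi_continuous : Continuous fun p : X × X => pi p.1 p.2
  H : Hypergroup D
  comp : ∀ (h₁ h₂ : D) (x : X) (A : Set X), MeasurableSet A →
    ∫⁻ w, (K w h₂ : Measure X) A ∂(K x h₁ : Measure X) =
      ∫⁻ h, (K x h : Measure X) A ∂(H.conv h₁ h₂ : Measure D)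
  K_e : ∀ x : X, (K x H.e : Measure X) = Measure.dirac x
  exists_adapted : ∃ m : Measure X, IsAdapted K H.inv m

/-- Property (T1). -/
def CAS.T1 {X D : Type*} [TopologicalSpace X] [MeasurableSpace X] [BorelSpace X]
    [TopologicalSpace D] [MeasurableSpace D] [BorelSpace D] (C : CAS X D) : Prop :=
  ∀ (x y : X) (h : D) (f : D → ℝ), Continuous f → HasCompactSupport f →
    ∫ z, f (C.pi x z) ∂(C.K y h : Measure X) = ∫ t, f t ∂(C.H.conv (C.pi x y) h : Measure D)

/-- Property (T2): for some measure `m` as in condition 4 and some left Haar measure `n`, the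
operators `T_f` and `T^{f∘pi}` agree for every continuous compactly supported `f`. -/
def CAS.T2 {X D : Type*} [TopologicalSpace X] [MeasurableSpace X] [BorelSpace X]
    [TopologicalSpace D] [MeasurableSpace D] [BorelSpace D] (C : CAS X D) : Prop :=
  ∃ (m : Measure X) (n : Measure D), IsAdapted C.K C.H.inv m ∧ C.H.IsLeftHaar n ∧
    ∀ (f : D → ℝ) (g : X → ℝ), Continuous f → HasCompactSupport f → Continuous g →
      HasCompactSupport g → ∀ x : X,
      ∫ h, (∫ y, g y ∂(C.K x h : Measure X)) * f h ∂n = ∫ y, f (C.pi x y) * g y ∂m

end Pool.R874.Assoc
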