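import Mathlib

open scoped ENNReal

namespace Pool.R874.Assoc

/-- A countable discrete homogeneous scheme with finite relations. -/
structure Scheme (X D : Type) where
  pi : X → X → D
  R : D → X → Finset X
  mem_R : ∀ h x y, y ∈ R h x ↔ pi x y = h
  R_nonempty : ∀ h x, (R h x).Nonempty
  hom : ∀ x y x' y', pi x y = pi x' y' →
    ∃ g : Equiv.Perm X, (∀ u v, pi (g u) (g v) = pi u v) ∧ g x = x' ∧ g y = y'
  e : D
  e_iff : ∀ x y, pi x y = e ↔ x = y
  inv : D → D
  pi_symm : ∀ x y, pi y x = inv (pi x y)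
  w : X → ℝ≥0∞
  w_pos : ∀ x, w x ≠ 0
  w_fin : ∀ x, w x ≠ ⊤
  modular : ∀ x y, ((R (pi x y) x).card : ℝ≥0∞) * w y = ((R (pi y x) y).card : ℝ≥0∞) * w x

namespace Scheme

variable {X D : Type} (S : Scheme X D)

/-- uniform distribution on the relation class -/
noncomputable def kap (h : D) (x : X) : PMF X := PMF.uniformOfFinset (S.R h x) (S.R_nonempty h x)

lemma inv_inv [Nonempty X] (h : D) : S.inv (S.inv h) = h := by
  obtain ⟨x⟩ := ‹Nonempty X›
  obtain ⟨y, hy⟩ := S.R_nonempty h x
  rw [S.mem_R] at hy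
  rw [← hy, ← S.pi_symm, ← S.pi_symm]

/-- automorphisms -/
def IsAut (g : Equiv.Perm X) : Prop := ∀ u v, S.pi (g u) (g v) = S.pi u v

lemma trans (x x' : X) : ∃ g : Equiv.Perm X, S.IsAut g ∧ g x = x' := by
  obtain ⟨g, hg, h1, _⟩ := S.hom x x x' x' (by rw [(S.e_iff x x).2 rfl, (S.e_iff x' x').2 rfl])
  exact ⟨g, hg, h1⟩

lemma card_R (h : D) (x x' : X) : (S.R h x).card = (S.R h x').card := by
  classical
  obtain ⟨g, hg, rfl⟩ := S.trans x x'
  have : S.R h (g x) = (S.R h x).map g.toEmbedding := by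
    ext y
    simp only [Finset.mem_map_equiv, S.mem_R]
    rw [← hg x (g.symm y)]
    simp
  rw [this, Finset.card_map]

lemma kap_apply (h : D) (x y : X) [DecidableEq D] :
    S.kap h x y = if S.pi x y = h then ((S.R h x).card : ℝ≥0∞)⁻¹ else 0 := by
  classical
  unfold kap
  rw [PMF.uniformOfFinset_apply]
  simp only [S.mem_R]

lemma kap_aut (g : Equiv.Perm X) (hg : S.IsAut g) (h : D) (x : X) :
    S.kap h (g x) = (S.kap h x).map g := by
  classical
  ext y
  rw [PMF.map_apply]
  rw [tsum_eq_single (g.symm y)]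
  · simp only [Equiv.apply_symm_apply, if_true]
    rw [S.kap_apply, S.kap_apply, S.card_R h (g x) x]
    have : S.pi (g x) y = S.pi x (g.symm y) := by
      rw [← hg x (g.symm y)]; simp
    rw [this]
  · intro b hb
    rw [if_neg]
    intro h'
    exact hb (by rw [h']; simp)

/-- two step distribution -/
noncomputable def two (h1 h2 : D) (x : X) : PMF X := (S.kap h1 x).bind (S.kap h2)

lemma two_aut (g : Equiv.Perm X) (hg : S.IsAut g) (h1 h2 : D) (x : X) :
    S.two h1 h2 (g x) = (S.two h1 h2 x).map g := by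
  unfold two
  rw [S.kap_aut g hg, PMF.bind_map, PMF.map_bind]
  congr 1
  funext y
  exact S.kap_aut g hg h2 y

lemma map_pi_aut (g : Equiv.Perm X) (hg : S.IsAut g) (x : X) (p : PMF X) :
    (p.map g).map (S.pi (g x)) = p.map (S.pi x) := by
  rw [PMF.map_comp]
  congr 1
  funext y
  exact hg x y

lemma two_law (h1 h2 : D) (x x' : X) :
    (S.two h1 h2 x).map (S.pi x) = (S.two h1 h2 x').map (S.pi x') := by
  obtain ⟨g, hg, rfl⟩ := S.trans x x'
  rw [S.two_aut g hg, S.map_pi_aut g hg]

variable [Nonempty X]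

/-- the convolution -/
noncomputable def cv (h1 h2 : D) : PMF D :=
  (S.two h1 h2 (Classical.arbitrary X)).map (S.pi (Classical.arbitrary X))

lemma cv_eq (h1 h2 : D) (x : X) : S.cv h1 h2 = (S.two h1 h2 x).map (S.pi x) :=
  S.two_law h1 h2 _ x

omit [Nonempty X] in
/-- disintegration of a stabiliser invariant distribution -/
lemma disint (x : X) (p : PMF X) (hp : ∀ g : Equiv.Perm X, S.IsAut g → g x = x → p.map g = p) :
    (p.map (S.pi x)).bind (fun h => S.kap h x) = p := by
  classical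
  ext y
  have hconst : ∀ y', S.pi x y' = S.pi x y → p y' = p y := by
    intro y' hy'
    obtain ⟨g, hg, h1, h2⟩ := S.hom x y' x y hy'
    have h3 : (p.map g) y = p y := by rw [hp g hg h1]
    rw [← h3, PMF.map_apply, tsum_eq_single y']
    · rw [if_pos h2.symm]
    · intro b hb
      rw [if_neg]
      intro h'
      apply hb
      apply g.injective
      rw [← h', h2]
  rw [PMF.bind_apply]
  rw [tsum_eq_single (S.pi x y)]
  · rw [S.kap_apply, if_pos rfl, PMF.map_apply]
    have hs : (∑' a, if S.pi x y = S.pi x a then p a else 0) = ∑ a ∈ S.R (S.pi x y) x, p a := by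
      rw [tsum_eq_sum (s := S.R (S.pi x y) x)]
      · apply Finset.sum_congr rfl
        intro a ha
        rw [S.mem_R] at ha
        rw [if_pos ha.symm]
      · intro a ha
        rw [S.mem_R] at ha
        rw [if_neg (fun h => ha h.symm)]
    rw [hs]
    rw [Finset.sum_congr rfl (g := fun _ => p y) (by
      intro a ha
      rw [S.mem_R] at ha
      exact hconst a ha)]
    rw [Finset.sum_const, nsmul_eq_mul]
    have hc : ((S.R (S.pi x y) x).card : ℝ≥0∞) ≠ 0 := by
      have : 0 < (S.R (S.pi x y) x).card := Finset.card_pos.2 (S.R_nonempty _ _)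
      exact_mod_cast this.ne'
    rw [mul_comm ((S.R (S.pi x y) x).card : ℝ≥0∞), mul_assoc, ENNReal.mul_inv_cancel hc (ENNReal.natCast_ne_top _), mul_one]
  · intro h hh
    rw [S.kap_apply, if_neg (fun h' => hh h'.symm), mul_zero]

/-- the composition law of the kernels -/
lemma comp_law (h1 h2 : D) (x : X) :
    (S.cv h1 h2).bind (fun h => S.kap h x) = S.two h1 h2 x := by
  rw [S.cv_eq h1 h2 x]
  apply S.disint
  intro g hg hx
  rw [← S.two_aut g hg, hx]

omit [Nonempty X] in
lemma kap_law (h : D) (x : X) : (S.kap h x).map (S.pi x) = PMF.pure h := by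
  classical
  have : (S.kap h x).map (S.pi x) = (S.kap h x).bind (fun y => PMF.pure (S.pi x y)) := rfl
  rw [this]
  ext k
  rw [PMF.bind_apply]
  have h1 : ∀ y, S.kap h x y * (PMF.pure (S.pi x y)) k = S.kap h x y * (PMF.pure h) k := by
    intro y
    rw [S.kap_apply]
    split_ifs with hh
    · rw [hh]
    · simp
  simp_rw [h1]
  rw [ENNReal.tsum_mul_right, PMF.tsum_coe, one_mul]

omit [Nonempty X] in
lemma bind_kap_inj (x : X) (p q : PMF D)
    (h : p.bind (fun h => S.kap h x) = q.bind (fun h => S.kap h x)) : p = q := by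
  have h1 := congrArg (fun r : PMF X => r.map (S.pi x)) h
  simp only [PMF.map_bind, S.kap_law, PMF.bind_pure] at h1
  exact h1

lemma assoc_law (h1 h2 h3 : D) :
    (S.cv h1 h2).bind (fun h => S.cv h h3) = (S.cv h2 h3).bind (fun h => S.cv h1 h) := by
  have x : X := Classical.arbitrary X
  apply S.bind_kap_inj x
  rw [PMF.bind_bind, PMF.bind_bind]
  simp_rw [S.comp_law]
  have hL : (S.cv h1 h2).bind (fun h => S.two h h3 x) = ((S.kap h1 x).bind (S.kap h2)).bind (S.kap h3) := by
    unfold two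
    rw [← PMF.bind_bind, S.comp_law]
    rfl
  have hR : (S.cv h2 h3).bind (fun h => S.two h1 h x) = (S.kap h1 x).bind (fun y => S.two h2 h3 y) := by
    unfold two
    rw [PMF.bind_comm]
    congr 1
    funext y
    rw [S.comp_law]
    rfl
  rw [hL, hR, PMF.bind_bind]
  rfl

omit [Nonempty X] in
lemma kap_e (x : X) : S.kap S.e x = PMF.pure x := by
  classical
  have hR : S.R S.e x = {x} := by
    ext y
    rw [S.mem_R, S.e_iff, Finset.mem_singleton]
    exact eq_comm
  ext y
  rw [S.kap_apply, hR, PMF.pure_apply]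
  simp only [S.e_iff]
  by_cases h : x = y
  · rw [if_pos h, if_pos h.symm]; simp
  · rw [if_neg h, if_neg (fun h' => h h'.symm)]

lemma cv_e_left (h : D) : S.cv S.e h = PMF.pure h := by
  have x : X := Classical.arbitrary X
  rw [S.cv_eq _ _ x]
  unfold two
  rw [S.kap_e, PMF.pure_bind, S.kap_law]

lemma cv_e_right (h : D) : S.cv h S.e = PMF.pure h := by
  have x : X := Classical.arbitrary X
  rw [S.cv_eq _ _ x]
  unfold two
  have : S.kap S.e = PMF.pure := by funext y; exact S.kap_e y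
  rw [this, PMF.bind_pure, S.kap_law]

/-- T1 at the level of distributions -/
lemma t1_law (x y : X) (h : D) : (S.kap h y).map (S.pi x) = S.cv (S.pi x y) h := by
  classical
  rw [S.cv_eq _ _ x]
  unfold two
  rw [PMF.map_bind]
  ext k
  rw [PMF.bind_apply]
  have h1 : ∀ z, S.kap (S.pi x y) x z * (PMF.map (S.pi x) (S.kap h z)) k
      = S.kap (S.pi x y) x z * (PMF.map (S.pi x) (S.kap h y)) k := by
    intro z
    rw [S.kap_apply]
    split_ifs with hh
    · obtain ⟨g, hg, hx, hz⟩ := S.hom x z x y hh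
      have e1 : S.kap h y = (S.kap h z).map g := by rw [← hz, S.kap_aut g hg]
      have e2 : (S.kap h y).map (S.pi x) = (S.kap h z).map (S.pi x) := by
        rw [e1]
        have := S.map_pi_aut g hg x (S.kap h z)
        rw [hx] at this
        exact this
      rw [e2]
    · simp
  simp_rw [h1]
  rw [ENNReal.tsum_mul_right, PMF.tsum_coe, one_mul]

omit [Nonempty X] in
/-- detailed balance -/
lemma balance (h : D) (x y : X) [Nonempty X] : S.w x * S.kap h x y = S.w y * S.kap (S.inv h) y x := by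
  classical
  rw [S.kap_apply, S.kap_apply]
  by_cases hh : S.pi x y = h
  · subst hh
    rw [if_pos rfl, if_pos (S.pi_symm x y), ← S.pi_symm]
    have hm := S.modular x y
    have hc1 : ((S.R (S.pi x y) x).card : ℝ≥0∞) ≠ 0 := by
      have : 0 < (S.R (S.pi x y) x).card := Finset.card_pos.2 (S.R_nonempty _ _)
      exact_mod_cast this.ne'
    have hc2 : ((S.R (S.pi y x) y).card : ℝ≥0∞) ≠ 0 := by
      have : 0 < (S.R (S.pi y x) y).card := Finset.card_pos.2 (S.R_nonempty _ _)
      exact_mod_cast this.ne'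
    have t1 : ((S.R (S.pi x y) x).card : ℝ≥0∞) ≠ ⊤ := ENNReal.natCast_ne_top _
    have t2 : ((S.R (S.pi y x) y).card : ℝ≥0∞) ≠ ⊤ := ENNReal.natCast_ne_top _
    rw [← div_eq_mul_inv, ← div_eq_mul_inv, ENNReal.div_eq_div_iff hc2 t2 hc1 t1]
    rw [← hm]
  · rw [if_neg hh, if_neg, mul_zero, mul_zero]
    intro h'
    apply hh
    rw [S.pi_symm y x, h', S.inv_inv]

lemma cv_apply (h1 h2 : D) (x z : X) :
    S.cv h1 h2 (S.pi x z) = ((S.R (S.pi x z) x).card : ℝ≥0∞) * ∑' y, S.kap h1 x y * S.kap h2 y z := by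
  classical
  have h := congrArg (fun q : PMF X => q z) (S.comp_law h1 h2 x)
  simp only [two, PMF.bind_apply] at h
  rw [← h, tsum_eq_single (S.pi x z)]
  · rw [S.kap_apply, if_pos rfl]
    have hc1 : ((S.R (S.pi x z) x).card : ℝ≥0∞) ≠ 0 := by
      have : 0 < (S.R (S.pi x z) x).card := Finset.card_pos.2 (S.R_nonempty _ _)
      exact_mod_cast this.ne'
    have t1 : ((S.R (S.pi x z) x).card : ℝ≥0∞) ≠ ⊤ := ENNReal.natCast_ne_top _
    rw [mul_comm (S.cv h1 h2 (S.pi x z)), ← mul_assoc, ENNReal.mul_inv_cancel hc1 t1, one_mul]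
  · intro h hh
    rw [S.kap_apply, if_neg (fun h' => hh h'.symm), mul_zero]

lemma cv_inv (h1 h2 : D) : (S.cv h1 h2).map S.inv = S.cv (S.inv h2) (S.inv h1) := by
  classical
  have x : X := Classical.arbitrary X
  ext k
  obtain ⟨z, hz⟩ := S.R_nonempty (S.inv k) x
  rw [S.mem_R] at hz
  have hk : S.pi z x = k := by rw [S.pi_symm x z, hz, S.inv_inv]
  rw [PMF.map_apply, tsum_eq_single (S.pi x z)]
  · rw [if_pos (by rw [← S.pi_symm, hk])]
    rw [S.cv_apply, ← hk, S.cv_apply]
    have hm := S.modular x z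
    have key : ∀ y, S.w x * (S.kap h1 x y * S.kap h2 y z)
        = S.w z * (S.kap (S.inv h2) z y * S.kap (S.inv h1) y x) := by
      intro y
      have b1 := S.balance h1 x y
      have b2 := S.balance h2 y z
      calc S.w x * (S.kap h1 x y * S.kap h2 y z) = (S.w x * S.kap h1 x y) * S.kap h2 y z := by ring
        _ = (S.w y * S.kap (S.inv h1) y x) * S.kap h2 y z := by rw [b1]
        _ = (S.w y * S.kap h2 y z) * S.kap (S.inv h1) y x := by ring
        _ = (S.w z * S.kap (S.inv h2) z y) * S.kap (S.inv h1) y x := by rw [b2]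
        _ = _ := by ring
    have key2 : S.w x * (∑' y, S.kap h1 x y * S.kap h2 y z)
        = S.w z * ∑' y, (S.kap (S.inv h2) z y * S.kap (S.inv h1) y x) := by
      rw [← ENNReal.tsum_mul_left, ← ENNReal.tsum_mul_left]
      exact tsum_congr key
    -- cancel
    have c : S.w x * (((S.R (S.pi x z) x).card : ℝ≥0∞) * ∑' y, S.kap h1 x y * S.kap h2 y z)
        = S.w x * (((S.R (S.pi z x) z).card : ℝ≥0∞) * ∑' y, (S.kap (S.inv h2) z y * S.kap (S.inv h1) y x)) := by
      calc S.w x * (((S.R (S.pi x z) x).card : ℝ≥0∞) * ∑' y, S.kap h1 x y * S.kap h2 y z)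
          = ((S.R (S.pi x z) x).card : ℝ≥0∞) * (S.w x * ∑' y, S.kap h1 x y * S.kap h2 y z) := by ring
        _ = ((S.R (S.pi x z) x).card : ℝ≥0∞) * (S.w z * ∑' y, (S.kap (S.inv h2) z y * S.kap (S.inv h1) y x)) := by rw [key2]
        _ = (((S.R (S.pi x z) x).card : ℝ≥0∞) * S.w z) * ∑' y, (S.kap (S.inv h2) z y * S.kap (S.inv h1) y x) := by ring
        _ = (((S.R (S.pi z x) z).card : ℝ≥0∞) * S.w x) * ∑' y, (S.kap (S.inv h2) z y * S.kap (S.inv h1) y x) := by rw [hm]
        _ = _ := by ring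
    exact (ENNReal.mul_right_inj (S.w_pos x) (S.w_fin x)).1 c
  · intro h hh
    rw [if_neg]
    intro h'
    apply hh
    rw [hz, h', S.inv_inv]

lemma e_mem (h1 h2 : D) : S.cv h1 h2 S.e ≠ 0 ↔ h2 = S.inv h1 := by
  classical
  have x : X := Classical.arbitrary X
  have he : S.pi x x = S.e := (S.e_iff x x).2 rfl
  rw [← he, S.cv_apply]
  have hc1 : ((S.R (S.pi x x) x).card : ℝ≥0∞) ≠ 0 := by
    have : 0 < (S.R (S.pi x x) x).card := Finset.card_pos.2 (S.R_nonempty _ _)
    exact_mod_cast this.ne'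
  rw [Ne, mul_eq_zero, not_or, ENNReal.tsum_eq_zero]
  constructor
  · rintro ⟨_, h⟩
    push Not at h
    obtain ⟨y, hy⟩ := h
    rw [S.kap_apply, S.kap_apply] at hy
    split_ifs at hy with a b
    · rw [← a, ← S.pi_symm, b]
    · simp at hy
    · simp at hy
    · simp at hy
  · intro h
    refine ⟨hc1, ?_⟩
    push Not
    obtain ⟨y, hy⟩ := S.R_nonempty h1 x
    rw [S.mem_R] at hy
    refine ⟨y, ?_⟩
    rw [S.kap_apply, S.kap_apply, if_pos hy, if_pos (by rw [h, S.pi_symm x y, hy])]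
    apply mul_ne_zero <;> exact ENNReal.inv_ne_zero.2 (ENNReal.natCast_ne_top _)

end Scheme

end Pool.R874.Assoc
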