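import Mathlib
import Pool.Agent.R874.CASDefs
import Pool.Agent.R874.SchemePMF

open MeasureTheory
open scoped ENNReal

namespace Pool.R874.Assoc

section disc

variable {X : Type} [TopologicalSpace X] [DiscreteTopology X] [MeasurableSpace X] [BorelSpace X]

lemma meas_all (A : Set X) : MeasurableSet A := (isOpen_discrete A).measurableSet

lemma meas_fun {Y : Type} [MeasurableSpace Y] (f : X → Y) : Measurable f := fun _ _ => meas_all _

lemma mem_supp (μ : Measure X) (x : X) : x ∈ μ.support ↔ μ {x} ≠ 0 := by
  rw [Measure.mem_support_iff_forall]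
  constructor
  · intro h
    exact (h {x} (by rw [nhds_discrete]; exact Set.mem_singleton x)).ne'
  · intro h U hU
    rw [nhds_discrete] at hU
    have hx : x ∈ U := hU
    exact lt_of_lt_of_le (pos_iff_ne_zero.2 h) (measure_mono (Set.singleton_subset_iff.2 hx))

lemma mem_supp_pmf (p : PMF X) (x : X) : x ∈ p.toMeasure.support ↔ p x ≠ 0 := by
  rw [mem_supp, PMF.toMeasure_apply_singleton p x (meas_all _)]

lemma lint_pmf [Countable X] (p : PMF X) (f : X → ℝ≥0∞) :
    ∫⁻ a, f a ∂p.toMeasure = ∑' a, p a * f a := by
  have : MeasurableSingletonClass X := ⟨fun a => meas_all _⟩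
  rw [lintegral_countable']
  apply tsum_congr
  intro a
  rw [PMF.toMeasure_apply_singleton p a (meas_all _), mul_comm]

lemma vietoris_disc {Z Y : Type*} [TopologicalSpace Z] [DiscreteTopology Z] [TopologicalSpace Y]
    (S : Z → Set Y) : VietorisContinuous S := fun _ _ => ⟨isOpen_discrete _, isOpen_discrete _⟩

lemma fin_supp (f : X → ℝ) (hf : HasCompactSupport f) : ∃ s : Finset X, ∀ x, x ∉ s → f x = 0 := by
  have h1 : (tsupport f).Finite := hf.isCompact.finite_of_discrete
  refine ⟨h1.toFinset, fun x hx => ?_⟩
  rw [Set.Finite.mem_toFinset] at hx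
  exact image_eq_zero_of_notMem_tsupport hx

lemma int_fin (μ : Measure X) (s : Finset X) (φ : X → ℝ) (h : ∀ x, x ∉ s → φ x = 0)
    (hfin : ∀ x, μ {x} ≠ ⊤) : ∫ x, φ x ∂μ = ∑ x ∈ s, (μ {x}).toReal * φ x := by
  have : MeasurableSingletonClass X := ⟨fun a => meas_all _⟩
  rw [← setIntegral_eq_integral_of_forall_compl_eq_zero (s := (↑s : Set X)) (by
    intro x hx
    exact h x (by simpa using hx))]
  rw [setIntegral_finset]
  · apply Finset.sum_congr rfl
    intro x _
    rw [smul_eq_mul]
    rfl
  · have hfs : μ (↑s : Set X) < ⊤ := by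
      have : (↑s : Set X) = ⋃ x ∈ s, {x} := by ext; simp
      rw [this]
      exact lt_of_le_of_lt (measure_biUnion_finset_le s _) (ENNReal.sum_lt_top.2 fun x _ => lt_top_iff_ne_top.2 (hfin x))
    obtain ⟨C, hC⟩ : ∃ C : ℝ, ∀ x ∈ s, ‖φ x‖ ≤ C := by
      refine ⟨∑ x ∈ s, ‖φ x‖, fun x hx => Finset.single_le_sum (f := fun x => ‖φ x‖) (fun _ _ => norm_nonneg _) hx⟩
    refine Measure.integrableOn_of_bounded (M := C) hfs.ne (meas_fun _).aestronglyMeasurable ?_
    rw [ae_restrict_iff' (meas_all _)]
    exact Filter.Eventually.of_forall fun x hx => hC x (by simpa using hx)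

end disc

variable {X D : Type} [TopologicalSpace X] [DiscreteTopology X] [MeasurableSpace X] [BorelSpace X]
  [Countable X] [Nonempty X]
  [TopologicalSpace D] [DiscreteTopology D] [MeasurableSpace D] [BorelSpace D] [Countable D]

/-- measure of a scheme -/
noncomputable def Scheme.mea (S : Scheme X D) : Measure X := Measure.count.withDensity S.w

omit [Countable X] [Nonempty X] [TopologicalSpace D] [DiscreteTopology D] [MeasurableSpace D]
  [BorelSpace D] [Countable D] in
lemma Scheme.mea_single (S : Scheme X D) (x : X) : S.mea {x} = S.w x := by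
  have : MeasurableSingletonClass X := ⟨fun a => meas_all _⟩
  unfold Scheme.mea
  rw [withDensity_apply _ (meas_all _), lintegral_singleton, Measure.count_singleton, mul_one]


omit [TopologicalSpace X] [DiscreteTopology X] [MeasurableSpace X] [BorelSpace X] [Countable X]
  [Nonempty X] [TopologicalSpace D] [DiscreteTopology D] [MeasurableSpace D]
  [BorelSpace D] [Countable D] in
lemma Scheme.kap_supp (S : Scheme X D) (h : D) (x : X) : (S.kap h x).support = ↑(S.R h x) := by
  unfold Scheme.kap
  rw [PMF.support_uniformOfFinset]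

omit [TopologicalSpace X] [DiscreteTopology X] [MeasurableSpace X] [BorelSpace X] [Countable X]
  [TopologicalSpace D] [DiscreteTopology D] [MeasurableSpace D]
  [BorelSpace D] [Countable D] in
lemma Scheme.cv_supp (S : Scheme X D) (a b : D) : (S.cv a b).support.Finite := by
  have x : X := Classical.arbitrary X
  rw [S.cv_eq a b x, PMF.support_map]
  apply Set.Finite.image
  unfold Scheme.two
  rw [PMF.support_bind]
  apply Set.Finite.biUnion
  · rw [S.kap_supp]; exact Finset.finite_toSet _
  · intro y _
    rw [S.kap_supp]; exact Finset.finite_toSet _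

omit [Nonempty X] [Countable X] in
lemma supp_pmf_eq (p : PMF X) : p.toMeasure.support = p.support := by
  ext x
  rw [mem_supp_pmf, PMF.mem_support_iff]

/-- hypergroup of a scheme -/
noncomputable def Scheme.toHyp (S : Scheme X D) : Hypergroup D where
  conv a b := ⟨(S.cv a b).toMeasure, inferInstance⟩
  conv_continuous := continuous_of_discreteTopology
  conv_assoc := by
    intro a b c A hA
    have h := congrArg (fun p : PMF D => p.toMeasure A) (S.assoc_law a b c)
    simp only [PMF.toMeasure_bind_apply _ _ _ hA] at h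
    simp only [ProbabilityMeasure.coe_mk]
    rw [lint_pmf, lint_pmf]
    exact h
  support_compact := by
    intro a b
    simp only [ProbabilityMeasure.coe_mk]
    rw [supp_pmf_eq]
    exact (S.cv_supp a b).isCompact
  support_continuous := vietoris_disc _
  e := S.e
  e_conv := by
    intro a
    simp only [ProbabilityMeasure.coe_mk]
    rw [S.cv_e_left, PMF.toMeasure_pure]
  conv_e := by
    intro a
    simp only [ProbabilityMeasure.coe_mk]
    rw [S.cv_e_right, PMF.toMeasure_pure]
  inv := S.inv
  inv_continuous := continuous_of_discreteTopology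
  inv_inv := S.inv_inv
  e_mem_support := by
    intro a b
    simp only [ProbabilityMeasure.coe_mk]
    rw [mem_supp_pmf, S.e_mem]
  conv_inv := by
    intro a b
    simp only [ProbabilityMeasure.coe_mk]
    rw [PMF.toMeasure_map _ _ (meas_fun _), S.cv_inv]

lemma Scheme.adapted (S : Scheme X D) :
    IsAdapted (fun x h => (⟨(S.kap h x).toMeasure, inferInstance⟩ : ProbabilityMeasure X)) S.inv
      S.mea := by
  have hfc : IsFiniteMeasureOnCompacts S.mea := by
    refine ⟨fun {K} hK => ?_⟩
    have hKf : K.Finite := hK.finite_of_discrete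
    have : K = ⋃ x ∈ hKf.toFinset, {x} := by ext; simp
    rw [this]
    exact lt_of_le_of_lt (measure_biUnion_finset_le _ _)
      (ENNReal.sum_lt_top.2 fun x _ => lt_top_iff_ne_top.2 (by rw [S.mea_single]; exact S.w_fin x))
  refine ⟨inferInstance, ⟨?_⟩, ?_⟩
  · intro U _ hne
    obtain ⟨x, hx⟩ := hne
    intro h0
    have : S.mea {x} = 0 := measure_mono_null (Set.singleton_subset_iff.2 hx) h0
    rw [S.mea_single] at this
    exact S.w_pos x this
  · intro h f g _ hf _ hg
    obtain ⟨s, hs⟩ := fin_supp f hf
    obtain ⟨t, ht⟩ := fin_supp g hg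
    have hw : ∀ x, S.mea {x} ≠ ⊤ := fun x => by rw [S.mea_single]; exact S.w_fin x
    have hk : ∀ (k : D) (x y : X), (S.kap k x).toMeasure {y} ≠ ⊤ := fun k x y => measure_ne_top _ _
    simp only [ProbabilityMeasure.coe_mk]
    rw [int_fin S.mea t _ (fun x hx => by rw [ht x hx, mul_zero]) hw]
    rw [int_fin S.mea s _ (fun x hx => by rw [hs x hx, zero_mul]) hw]
    simp_rw [int_fin _ s f hs (hk _ _), int_fin _ t g ht (hk _ _)]
    simp_rw [Finset.sum_mul, Finset.mul_sum]
    rw [Finset.sum_comm]
    apply Finset.sum_congr rfl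
    intro y _
    apply Finset.sum_congr rfl
    intro x _
    rw [S.mea_single, S.mea_single, PMF.toMeasure_apply_singleton _ _ (meas_all _),
      PMF.toMeasure_apply_singleton _ _ (meas_all _)]
    have hb := congrArg ENNReal.toReal (S.balance h y x)
    rw [ENNReal.toReal_mul, ENNReal.toReal_mul] at hb
    linear_combination (-(f y) * g x) * hb

/-- continuous association scheme of a scheme -/
noncomputable def Scheme.toCAS (S : Scheme X D) : CAS X D where
  K x h := ⟨(S.kap h x).toMeasure, inferInstance⟩
  K_continuous := continuous_of_discreteTopology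
  support_compact := by
    intro x h
    simp only [ProbabilityMeasure.coe_mk]
    rw [supp_pmf_eq, S.kap_supp]
    exact (Finset.finite_toSet _).isCompact
  support_continuous := vietoris_disc _
  pi := S.pi
  mem_support := by
    intro x y h
    simp only [ProbabilityMeasure.coe_mk]
    rw [supp_pmf_eq, S.kap_supp, Finset.mem_coe, S.mem_R]
  pi_continuous := continuous_of_discreteTopology
  H := S.toHyp
  comp := by
    intro h₁ h₂ x A hA
    have h := congrArg (fun p : PMF X => p.toMeasure A) (S.comp_law h₁ h₂ x)
    simp only [Scheme.two, PMF.toMeasure_bind_apply _ _ _ hA] at h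
    simp only [Scheme.toHyp, ProbabilityMeasure.coe_mk]
    rw [lint_pmf, lint_pmf]
    exact h.symm
  K_e := by
    intro x
    simp only [Scheme.toHyp, ProbabilityMeasure.coe_mk]
    rw [S.kap_e, PMF.toMeasure_pure]
  exists_adapted := ⟨S.mea, S.adapted⟩

lemma Scheme.toCAS_T1 (S : Scheme X D) : S.toCAS.T1 := by
  intro x y h f _ _
  have e : (S.toCAS.H.conv (S.toCAS.pi x y) h : Measure D) = ((S.kap h y).toMeasure).map (S.pi x) := by
    rw [PMF.toMeasure_map _ _ (meas_fun _), S.t1_law]
    rfl
  rw [e, integral_map (meas_fun _).aemeasurable (meas_fun _).aestronglyMeasurable]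
  rfl

end Pool.R874.Assoc
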