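import Mathlib
import Pool.Agent.R874.SchemeCAS

open MeasureTheory
open scoped ENNReal

namespace Pool.R874.Assoc

/-- vertices of the rooted-at-infinity binary tree: a level and a finite set of smaller integers -/
@[ext] structure V where
  lev : ℤ
  set : Finset ℤ
  lt : ∀ i ∈ set, i < lev
  deriving DecidableEq

/-- relation classes -/
@[ext] structure E where
  lev : ℤ
  set : Finset ℤ
  lt : ∀ i ∈ set, i < min 0 lev
  deriving DecidableEq

instance : Countable V := by
  have : Function.Injective (fun v : V => (v.lev, v.set)) := by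
    intro a b h
    simp only [Prod.mk.injEq] at h
    exact V.ext h.1 h.2
  exact this.countable

instance : Countable E := by
  have : Function.Injective (fun v : E => (v.lev, v.set)) := by
    intro a b h
    simp only [Prod.mk.injEq] at h
    exact E.ext h.1 h.2
  exact this.countable

instance : TopologicalSpace V := ⊥
instance : DiscreteTopology V := ⟨rfl⟩
instance : MeasurableSpace V := ⊤
instance : BorelSpace V := ⟨by
  apply le_antisymm
  · intro s _
    exact MeasurableSpace.measurableSet_generateFrom (isOpen_discrete s)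
  · exact le_top⟩
instance : TopologicalSpace E := ⊥
instance : DiscreteTopology E := ⟨rfl⟩
instance : MeasurableSpace E := ⊤
instance : BorelSpace E := ⟨by
  apply le_antisymm
  · intro s _
    exact MeasurableSpace.measurableSet_generateFrom (isOpen_discrete s)
  · exact le_top⟩

/-- shift -/
def sh (k : ℤ) (s : Finset ℤ) : Finset ℤ := s.map (Equiv.addRight k).toEmbedding

@[simp] lemma mem_sh (k : ℤ) (s : Finset ℤ) (i : ℤ) : i ∈ sh k s ↔ i - k ∈ s := by
  unfold sh
  rw [Finset.mem_map_equiv]
  rfl

/-- truncation -/
def mk (n : ℤ) (s : Finset ℤ) : V := ⟨n, s.filter (fun i => i < n), fun _ hi => (Finset.mem_filter.1 hi).2⟩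

instance : Nonempty V := ⟨mk 0 ∅⟩

/-- class of a pair -/
def pr (x y : V) : E :=
  ⟨y.lev - x.lev, sh (-x.lev) ((symmDiff x.set y.set).filter (fun i => i < min x.lev y.lev)), by
    intro i hi
    rw [mem_sh, Finset.mem_filter] at hi
    have := hi.2
    omega⟩

lemma pr_eq_iff (x y : V) (h : E) : pr x y = h ↔ y.lev - x.lev = h.lev ∧
    ∀ j, j < min 0 h.lev → ((j + x.lev ∈ x.set ↔ j + x.lev ∈ y.set) ↔ j ∉ h.set) := by
  constructor
  · rintro rfl
    refine ⟨rfl, ?_⟩
    intro j hj
    have hj' : j < min 0 (y.lev - x.lev) := hj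
    simp only [pr, mem_sh, Finset.mem_filter, Finset.mem_symmDiff, sub_neg_eq_add]
    have : j + x.lev < min x.lev y.lev := by omega
    tauto
  · rintro ⟨h1, h2⟩
    ext j
    · rw [← h1]; rfl
    · simp only [pr, mem_sh, Finset.mem_filter, Finset.mem_symmDiff, sub_neg_eq_add]
      by_cases hj : j < min 0 h.lev
      · have := h2 j hj
        have : j + x.lev < min x.lev y.lev := by omega
        tauto
      · have a1 : ¬ (j + x.lev < min x.lev y.lev) := by omega
        have a2 : j ∉ h.set := fun h' => hj (h.lt j h')
        tauto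

/-- base part of the sets in a relation class -/
noncomputable def base (h : E) (x : V) : Finset ℤ :=
  (symmDiff x.set (sh x.lev h.set)).filter (fun i => i < min x.lev (x.lev + h.lev))

noncomputable def RR (h : E) (x : V) : Finset V :=
  ((Finset.Ico (min x.lev (x.lev + h.lev)) (x.lev + h.lev)).powerset).image
    (fun T => mk (x.lev + h.lev) (base h x ∪ T))

lemma mem_RR (h : E) (x y : V) : y ∈ RR h x ↔ pr x y = h := by
  rw [pr_eq_iff]
  unfold RR
  rw [Finset.mem_image]
  constructor
  · rintro ⟨T, hT, rfl⟩
    rw [Finset.mem_powerset] at hT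
    refine ⟨by simp [mk], ?_⟩
    intro j hj
    have hjT : j + x.lev ∉ T := by
      intro h'
      have := Finset.mem_Ico.1 (hT h')
      omega
    have h2 : j + x.lev < x.lev + h.lev := by omega
    have h3 : j + x.lev < min x.lev (x.lev + h.lev) := by omega
    simp only [mk, base, Finset.mem_filter, Finset.mem_union, Finset.mem_symmDiff, mem_sh, add_sub_cancel_right]
    tauto
  · rintro ⟨h1, h2⟩
    refine ⟨y.set.filter (fun i => min x.lev (x.lev + h.lev) ≤ i), ?_, ?_⟩
    · rw [Finset.mem_powerset]
      intro i hi
      rw [Finset.mem_filter] at hi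
      have := y.lt i hi.1
      rw [Finset.mem_Ico]
      constructor
      · exact hi.2
      · omega
    · ext i
      · simp only [mk]; omega
      · simp only [mk, base, Finset.mem_filter, Finset.mem_union, Finset.mem_symmDiff, mem_sh]
        by_cases hi : i < min x.lev (x.lev + h.lev)
        · have a := h2 (i - x.lev) (by omega)
          rw [sub_add_cancel] at a
          have b : ¬ (min x.lev (x.lev + h.lev) ≤ i) := by omega
          have c : i < x.lev + h.lev := by omega
          tauto
        · have b : (min x.lev (x.lev + h.lev) ≤ i) := by omega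
          by_cases hy : i ∈ y.set
          · have := y.lt i hy
            have c : i < x.lev + h.lev := by omega
            tauto
          · tauto

lemma card_RR (h : E) (x : V) :
    (RR h x).card = 2 ^ ((x.lev + h.lev) - min x.lev (x.lev + h.lev)).toNat := by
  unfold RR
  rw [Finset.card_image_of_injOn, Finset.card_powerset, Int.card_Ico]
  intro T hT T' hT' he
  rw [Finset.mem_coe, Finset.mem_powerset] at hT hT'
  have he' := congrArg V.set he
  ext i
  have hi := Finset.ext_iff.1 he' i
  simp only [mk, base, Finset.mem_filter, Finset.mem_union, Finset.mem_symmDiff, mem_sh] at hi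
  constructor
  · intro h'
    have := Finset.mem_Ico.1 (hT h')
    have c : ¬ (i < min x.lev (x.lev + h.lev)) := by omega
    tauto
  · intro h'
    have := Finset.mem_Ico.1 (hT' h')
    have c : ¬ (i < min x.lev (x.lev + h.lev)) := by omega
    tauto

/-- automorphisms -/
def aut (k : ℤ) (F : Finset ℤ) : Equiv.Perm V where
  toFun v := mk (v.lev + k) (symmDiff (sh k v.set) F)
  invFun v := mk (v.lev - k) (sh (-k) (symmDiff v.set F))
  left_inv := by
    intro v
    ext i
    · simp [mk]
    · simp only [mk, Finset.mem_filter, mem_sh, Finset.mem_symmDiff, sub_neg_eq_add, add_sub_cancel_right]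
      have := v.lt i
      by_cases h : i < v.lev
      · have h2 : i + k < v.lev + k := by omega
        tauto
      · tauto
  right_inv := by
    intro v
    ext i
    · simp [mk]
    · simp only [mk, Finset.mem_filter, mem_sh, Finset.mem_symmDiff, sub_neg_eq_add, sub_add_cancel]
      have := v.lt i
      by_cases h : i < v.lev
      · have h2 : i - k < v.lev - k := by omega
        tauto
      · tauto

lemma aut_pr (k : ℤ) (F : Finset ℤ) (u v : V) : pr (aut k F u) (aut k F v) = pr u v := by
  rw [pr_eq_iff]
  constructor
  · simp [aut, mk, pr]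
  · intro j hj
    have hj' : j < min 0 (v.lev - u.lev) := hj
    simp only [aut, mk, pr, Equiv.coe_fn_mk, Finset.mem_filter, Finset.mem_symmDiff, mem_sh, sub_neg_eq_add]
    have h1 : j + (u.lev + k) < u.lev + k := by omega
    have h2 : j + (u.lev + k) < v.lev + k := by omega
    have h3 : j + (u.lev + k) - k = j + u.lev := by ring
    have h4 : j + u.lev < min u.lev v.lev := by omega
    rw [h3]
    tauto

lemma hom_pr (x y x' y' : V) (h : pr x y = pr x' y') :
    ∃ g : Equiv.Perm V, (∀ u v, pr (g u) (g v) = pr u v) ∧ g x = x' ∧ g y = y' := by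
  have h0 := (pr_eq_iff x y (pr x' y')).1 h
  have hl : y.lev - x.lev = y'.lev - x'.lev := h0.1
  have hs := h0.2
  have hs' := ((pr_eq_iff x' y' (pr x' y')).1 rfl).2
  have key : ∀ i, i < min x'.lev y'.lev →
      ((i - (x'.lev - x.lev) ∈ x.set ↔ i - (x'.lev - x.lev) ∈ y.set) ↔ (i ∈ x'.set ↔ i ∈ y'.set)) := by
    intro i hi
    have hlev : (pr x' y').lev = y'.lev - x'.lev := rfl
    have a := hs (i - x'.lev) (by rw [hlev]; omega)
    have b := hs' (i - x'.lev) (by rw [hlev]; omega)
    rw [sub_add_cancel] at b
    have e : i - x'.lev + x.lev = i - (x'.lev - x.lev) := by ring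
    rw [e] at a
    tauto
  clear hs hs' h0 h
  refine ⟨aut (x'.lev - x.lev)
    (symmDiff (sh (x'.lev - x.lev) x.set) x'.set ∪ symmDiff (sh (x'.lev - x.lev) y.set) y'.set),
    aut_pr _ _, ?_, ?_⟩
  · ext i
    · simp [aut, mk]
    · simp only [aut, mk, Equiv.coe_fn_mk, Finset.mem_filter, Finset.mem_symmDiff, mem_sh, Finset.mem_union]
      have e1 : x.lev + (x'.lev - x.lev) = x'.lev := by ring
      rw [e1]
      have k1 := key i
      have k2 := x'.lt i
      have k3 := y'.lt i
      have k4 := y.lt (i - (x'.lev - x.lev))
      by_cases hi : i < x'.lev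
      · by_cases hi2 : i < y'.lev
        · have a := k1 (by omega)
          clear k1 k2 k3 k4 key
          by_cases p1 : i ∈ x'.set <;> by_cases p2 : i ∈ y'.set <;>
            by_cases p3 : i - (x'.lev - x.lev) ∈ x.set <;>
            by_cases p4 : i - (x'.lev - x.lev) ∈ y.set <;> simp_all
        · have n1 : i ∉ y'.set := fun hh => hi2 (k3 hh)
          have n2 : i - (x'.lev - x.lev) ∉ y.set := fun hh => by have := k4 hh; omega
          clear k1 k2 k3 k4 key
          by_cases p1 : i ∈ x'.set <;>
            by_cases p3 : i - (x'.lev - x.lev) ∈ x.set <;> simp_all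
      · clear k1 k3 k4 key
        constructor
        · intro hh; exact absurd hh.2 hi
        · intro hh; exact absurd (k2 hh) hi
  · ext i
    · simp only [aut, mk, Equiv.coe_fn_mk]; omega
    · simp only [aut, mk, Equiv.coe_fn_mk, Finset.mem_filter, Finset.mem_symmDiff, mem_sh, Finset.mem_union]
      have e1 : y.lev + (x'.lev - x.lev) = y'.lev := by omega
      rw [e1]
      have k1 := key i
      have k2 := x'.lt i
      have k3 := y'.lt i
      have k4 := x.lt (i - (x'.lev - x.lev))
      by_cases hi : i < y'.lev
      · by_cases hi2 : i < x'.lev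
        · have a := k1 (by omega)
          clear k1 k2 k3 k4 key
          by_cases p1 : i ∈ x'.set <;> by_cases p2 : i ∈ y'.set <;>
            by_cases p3 : i - (x'.lev - x.lev) ∈ x.set <;>
            by_cases p4 : i - (x'.lev - x.lev) ∈ y.set <;> simp_all
        · have n1 : i ∉ x'.set := fun hh => hi2 (k2 hh)
          have n2 : i - (x'.lev - x.lev) ∉ x.set := fun hh => by have := k4 hh; omega
          clear k1 k2 k3 k4 key
          by_cases p1 : i ∈ y'.set <;>
            by_cases p3 : i - (x'.lev - x.lev) ∈ y.set <;> simp_all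
      · clear k1 k2 k4 key
        constructor
        · intro hh; exact absurd hh.2 hi
        · intro hh; exact absurd (k3 hh) hi

/-- inverse class -/
def iv (h : E) : E := ⟨-h.lev, sh (-h.lev) h.set, by
  intro i hi
  rw [mem_sh] at hi
  have := h.lt _ hi
  omega⟩

lemma pr_symm (x y : V) : pr y x = iv (pr x y) := by
  rw [pr_eq_iff]
  refine ⟨by simp [iv, pr], ?_⟩
  intro j hj
  have hj' : j < min 0 (-(y.lev - x.lev)) := hj
  simp only [iv, pr, mem_sh, Finset.mem_filter, Finset.mem_symmDiff, sub_neg_eq_add]
  have e1 : j + (y.lev - x.lev) + x.lev = j + y.lev := by ring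
  rw [e1]
  have e2 : j + y.lev < min x.lev y.lev := by omega
  tauto

noncomputable def ww (x : V) : ℝ≥0∞ := ENNReal.ofReal ((2 : ℝ) ^ (-x.lev))

lemma modu (x y : V) : ((RR (pr x y) x).card : ℝ≥0∞) * ww y
    = ENNReal.ofReal ((2 : ℝ) ^ (- min x.lev y.lev)) := by
  rw [card_RR]
  have hl : (pr x y).lev = y.lev - x.lev := rfl
  rw [hl]
  unfold ww
  have e1 : x.lev + (y.lev - x.lev) = y.lev := by ring
  rw [e1]
  have e2 : ((2 ^ (y.lev - min x.lev y.lev).toNat : ℕ) : ℝ≥0∞)
      = ENNReal.ofReal ((2 : ℝ) ^ (y.lev - min x.lev y.lev)) := by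
    have h3 : (y.lev - min x.lev y.lev) = ((y.lev - min x.lev y.lev).toNat : ℤ) := by omega
    conv_rhs => rw [h3]
    rw [zpow_natCast, ENNReal.ofReal_pow (by norm_num)]
    simp
  rw [e2, ← ENNReal.ofReal_mul (by positivity), ← zpow_add₀ (by norm_num)]
  congr 2
  ring

/-- the scheme of the tree -/
noncomputable def SS : Scheme V E where
  pi := pr
  R := RR
  mem_R := mem_RR
  R_nonempty := by
    intro h x
    unfold RR
    rw [Finset.image_nonempty]
    exact Finset.powerset_nonempty _
  hom := hom_pr
  e := ⟨0, ∅, by simp⟩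
  e_iff := by
    intro x y
    rw [pr_eq_iff]
    constructor
    · rintro ⟨h1, h2⟩
      simp only at h1 h2
      ext i
      · omega
      · have a := h2 (i - x.lev)
        rw [sub_add_cancel] at a
        by_cases hi : i < x.lev
        · have := a (by omega)
          simp at this
          exact this
        · have n1 : i ∉ x.set := fun hh => hi (x.lt i hh)
          have n2 : i ∉ y.set := fun hh => by have := y.lt i hh; omega
          tauto
    · rintro rfl
      simp
  inv := iv
  pi_symm := pr_symm
  w := ww
  w_pos := by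
    intro x
    unfold ww
    rw [Ne, ENNReal.ofReal_eq_zero, not_le]
    positivity
  w_fin := fun x => ENNReal.ofReal_ne_top
  modular := by
    intro x y
    rw [modu, modu, min_comm]

end Pool.R874.Assoc
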