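import Mathlib
import Pool.Agent.R874.TreeScheme

open MeasureTheory
open scoped ENNReal

namespace Pool.R874.Assoc

/-- parent -/
def par (x : V) : V := mk (x.lev - 1) x.set
/-- the two children -/
def ch1 (x : V) : V := mk (x.lev + 1) x.set
def ch2 (x : V) : V := mk (x.lev + 1) (insert x.lev x.set)
/-- the class of the parent -/
def hp : E := ⟨-1, ∅, by simp⟩

lemma par_ch1 (x : V) : par (ch1 x) = x := by
  ext i
  · simp [par, ch1, mk]
  · simp only [par, ch1, mk, Finset.mem_filter, add_sub_cancel_right]
    have := x.lt i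
    constructor
    · tauto
    · intro h
      have := this h
      exact ⟨⟨h, by omega⟩, this⟩

lemma par_ch2 (x : V) : par (ch2 x) = x := by
  ext i
  · simp [par, ch2, mk]
  · simp only [par, ch2, mk, Finset.mem_filter, add_sub_cancel_right, Finset.mem_insert]
    have := x.lt i
    constructor
    · rintro ⟨⟨h1 | h1, h2⟩, h3⟩
      · omega
      · exact h1
    · intro h
      have := this h
      exact ⟨⟨Or.inr h, by omega⟩, this⟩

lemma ch_ne (x : V) : ch1 x ≠ ch2 x := by
  intro h
  have h1 := congrArg V.set h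
  have h2 := (Finset.ext_iff.1 h1 x.lev)
  simp only [ch1, ch2, mk, Finset.mem_filter, Finset.mem_insert] at h2
  have := x.lt x.lev
  have h3 : x.lev ∉ x.set := fun hh => lt_irrefl _ (this hh)
  have h4 := h2.2 ⟨Or.inl trivial, by omega⟩
  exact h3 h4.1

lemma pr_par (x y : V) : pr x y = hp ↔ y = par x := by
  rw [pr_eq_iff]
  constructor
  · rintro ⟨h1, h2⟩
    simp only [hp] at h1 h2
    ext i
    · simp only [par, mk]; omega
    · simp only [par, mk, Finset.mem_filter]
      have a := h2 (i - x.lev)
      rw [sub_add_cancel] at a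
      by_cases hi : i < x.lev - 1
      · have := a (by omega)
        simp at this
        tauto
      · have n2 : i ∉ y.set := fun hh => by have := y.lt i hh; omega
        tauto
  · rintro rfl
    refine ⟨by simp [par, mk, hp], ?_⟩
    intro j hj
    simp only [hp] at hj
    simp only [par, mk, hp, Finset.mem_filter]
    have : j + x.lev < x.lev - 1 := by omega
    simp [this]

lemma K_one (C : CAS V E) (hC : C.pi = pr) (x : V) : (C.K x hp : Measure V) {par x} = 1 := by
  have hz : ∀ z, z ≠ par x → (C.K x hp : Measure V) {z} = 0 := by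
    intro z hz
    by_contra h
    have h1 := (mem_supp _ _).2 h
    rw [C.mem_support, hC, pr_par] at h1
    exact hz h1
  have h0 : (C.K x hp : Measure V) ({par x}ᶜ) = 0 := by
    have : ({par x}ᶜ : Set V) = ⋃ z ∈ ({par x}ᶜ : Set V), {z} := by ext; simp
    rw [this, measure_biUnion_null_iff (Set.to_countable _)]
    intro z hz'
    exact hz z hz'
  have h1 := measure_add_measure_compl (μ := (C.K x hp : Measure V)) (s := {par x}) (meas_all _)
  rw [h0, add_zero, measure_univ] at h1
  exact h1

/-- indicator of a point -/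
noncomputable def ind {Y : Type} (z : Y) : Y → ℝ := by
  classical exact fun y => if y = z then 1 else 0

lemma ind_self {Y : Type} (z : Y) : ind z z = 1 := by
  classical
  simp [ind]

lemma ind_ne {Y : Type} (z y : Y) (h : y ≠ z) : ind z y = 0 := by
  classical
  simp [ind, h]

lemma ind_cs {Y : Type} [TopologicalSpace Y] [DiscreteTopology Y] (z : Y) :
    HasCompactSupport (ind z) := by
  apply HasCompactSupport.intro (K := {z}) isCompact_singleton
  intro x hx
  exact ind_ne z x (by simpa using hx)

lemma int_ind {Y : Type} [TopologicalSpace Y] [DiscreteTopology Y] [MeasurableSpace Y]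
    [BorelSpace Y] (μ : Measure Y) (hfin : ∀ x, μ {x} ≠ ⊤) (z : Y) :
    ∫ y, ind z y ∂μ = (μ {z}).toReal := by
  rw [int_fin μ {z} _ (fun x hx => ind_ne z x (by simpa using hx)) hfin]
  simp [ind_self]

theorem no_T2 (C : CAS V E) (hC : C.pi = pr) : ¬ C.T2 := by
  rintro ⟨m, n, hm, hn, hT⟩
  obtain ⟨hreg, hopen, hadj⟩ := hm
  have mfin : ∀ x, m {x} ≠ ⊤ := fun x => (isCompact_singleton.measure_lt_top).ne
  have nfin : ∀ x, n {x} ≠ ⊤ := by
    have := hn.2.1
    exact fun x => (isCompact_singleton.measure_lt_top).ne
  have kfin : ∀ (x : V) (h : E) (y : V), (C.K x h : Measure V) {y} ≠ ⊤ :=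
    fun x h y => measure_ne_top _ _
  have mpos : ∀ x, m {x} ≠ 0 := fun x => (isOpen_discrete {x}).measure_ne_zero m ⟨x, rfl⟩
  -- the measure is constant
  have c1 : ∀ x, (m {par x}).toReal = (n {hp}).toReal := by
    intro x
    have h := hT (ind hp) (ind (par x)) continuous_of_discreteTopology (ind_cs _)
      continuous_of_discreteTopology (ind_cs _) x
    rw [int_fin n {hp} _ (fun k hk => by rw [ind_ne hp k (by simpa using hk), mul_zero]) nfin] at h
    rw [int_fin m {par x} _ (fun y hy => by rw [ind_ne (par x) y (by simpa using hy), mul_zero]) mfin] at h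
    rw [Finset.sum_singleton, Finset.sum_singleton, int_ind _ (kfin _ _), K_one C hC, ind_self,
      ind_self, hC, (pr_par x (par x)).2 rfl, ind_self] at h
    simp at h
    exact h.symm
  have c2 : ∀ z, (m {z}).toReal = (n {hp}).toReal := by
    intro z
    have := c1 (ch1 z)
    rwa [par_ch1] at this
  -- adjointness
  have c3 : ∀ x z : V, par z = x → (C.K x (C.H.inv hp) : Measure V) {z} = 1 := by
    intro x z hz
    have h := hadj hp (ind z) (ind x) continuous_of_discreteTopology (ind_cs _)
      continuous_of_discreteTopology (ind_cs _)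
    rw [int_fin m {x} _ (fun y hy => by rw [ind_ne x y (by simpa using hy), mul_zero]) mfin] at h
    rw [int_fin m {z} _ (fun y hy => by rw [ind_ne z y (by simpa using hy), zero_mul]) mfin] at h
    rw [Finset.sum_singleton, Finset.sum_singleton, int_ind _ (kfin _ _), int_ind _ (kfin _ _),
      ind_self, ind_self, c2 x, c2 z] at h
    have hk : (C.K z hp : Measure V) {x} = 1 := by rw [← hz]; exact K_one C hC z
    rw [hk] at h
    have hpos : (n {hp}).toReal ≠ 0 := by
      rw [← c2 x]
      exact ENNReal.toReal_ne_zero.2 ⟨mpos x, mfin x⟩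
    have h2 : ((C.K x (C.H.inv hp) : Measure V) {z}).toReal = 1 := by
      have := mul_left_cancel₀ hpos h
      simpa using this
    rwa [ENNReal.toReal_eq_one_iff] at h2
  have x : V := mk 0 ∅
  have a1 := c3 x (ch1 x) (par_ch1 x)
  have a2 := c3 x (ch2 x) (par_ch2 x)
  have h3 : (C.K x (C.H.inv hp) : Measure V) ({ch1 x} ∪ {ch2 x}) = 2 := by
    rw [measure_union (by rw [Set.disjoint_singleton]; exact ch_ne x) (meas_all _), a1, a2]
    norm_num
  have h4 : (C.K x (C.H.inv hp) : Measure V) ({ch1 x} ∪ {ch2 x}) ≤ 1 := prob_le_one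
  rw [h3] at h4
  norm_num at h4

end Pool.R874.Assoc
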