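import Mathlib

namespace Pool.R874.Weitz

set_option linter.unusedSectionVars false

section proj

variable {K M : Type*} [Field K] [CharZero K] [AddCommGroup M] [Module K M]

lemma indep (h : M →ₗ[K] M) (s : Finset ℤ) : ∀ v : ℤ → M, (∀ m, h (v m) = (m : K) • v m) →
    ∑ m ∈ s, v m = 0 → ∀ m ∈ s, v m = 0 := by
  induction s using Finset.induction_on with
  | empty => intro v _ _ m hm; simp at hm
  | insert a s ha ih =>
    intro v hv hs
    rw [Finset.sum_insert ha] at hs
    have h1 : ∑ m ∈ s, ((m : K) - (a : K)) • v m = 0 := by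
      have h2 := congrArg h hs
      rw [map_add, map_sum, map_zero, hv] at h2
      have h3 : ∑ m ∈ s, h (v m) = ∑ m ∈ s, (m : K) • v m := Finset.sum_congr rfl fun m _ => hv m
      rw [h3] at h2
      have h4 : v a = - ∑ m ∈ s, v m := eq_neg_of_add_eq_zero_left hs
      rw [h4, smul_neg, Finset.smul_sum] at h2
      simp_rw [sub_smul]
      rw [Finset.sum_sub_distrib]
      rw [← h2]
      abel
    have h5 := ih (fun m => ((m : K) - (a : K)) • v m) (by
      intro m
      rw [map_smul, hv, smul_comm]) h1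
    have h6 : ∀ m ∈ s, v m = 0 := by
      intro m hm
      have h7 := h5 m hm
      rcases smul_eq_zero.1 h7 with h8 | h8
      · exfalso
        have : m = a := by
          have := sub_eq_zero.1 h8
          exact_mod_cast this
        exact ha (this ▸ hm)
      · exact h8
    intro m hm
    rw [Finset.mem_insert] at hm
    rcases hm with rfl | hm
    · rw [Finset.sum_eq_zero h6, add_zero] at hs
      exact hs
    · exact h6 m hm

/-- the commutation relation for powers -/
lemma comm_pow (E F : M →ₗ[K] M) (W : ℤ → Submodule K M)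
    (hF : ∀ m u, u ∈ W m → F u ∈ W (m - 2))
    (hEF : ∀ m u, u ∈ W m → E (F u) - F (E u) = (m : K) • u) (m : ℤ) (k : ℕ) (u : M)
    (hu : u ∈ W m) :
    E ((F ^ (k + 1)) u) = (F ^ (k + 1)) (E u) + (((k : K) + 1) * ((m : K) - k)) • (F ^ k) u := by
  have hFk : ∀ k : ℕ, (F ^ k) u ∈ W (m - 2 * k) := by
    intro k
    induction k with
    | zero => simpa using hu
    | succ k ih =>
      rw [pow_succ', Module.End.mul_apply]
      have := hF _ _ ih
      have e : m - 2 * (k : ℤ) - 2 = m - 2 * ((k + 1 : ℕ) : ℤ) := by push_cast; ring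
      rwa [e] at this
  induction k with
  | zero =>
    have := hEF m u hu
    simp only [zero_add, pow_one, Nat.cast_zero, sub_zero, one_mul, pow_zero, Module.End.one_apply]
    rw [← this]
    abel
  | succ k ih =>
    have h1 := hEF _ _ (hFk (k + 1))
    have e1 : (F ^ (k + 1 + 1)) u = F ((F ^ (k + 1)) u) := by rw [pow_succ' F (k+1), Module.End.mul_apply]
    have e2 : (F ^ (k + 1 + 1)) (E u) = F ((F ^ (k + 1)) (E u)) := by rw [pow_succ' F (k+1), Module.End.mul_apply]
    have e3 : (F ^ (k + 1)) u = F ((F ^ k) u) := by rw [pow_succ', Module.End.mul_apply]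
    have h2 : E ((F ^ (k + 1 + 1)) u) = F (E ((F ^ (k + 1)) u)) + ((m - 2 * ((k + 1 : ℕ) : ℤ) : ℤ) : K) • (F ^ (k + 1)) u := by
      rw [e1, ← h1]; abel
    rw [h2, ih, map_add, map_smul, ← e2, ← e3, add_assoc, ← add_smul]
    congr 2
    push_cast
    ring

/-- coefficients of the extremal projector -/
noncomputable def cc (K : Type*) [Field K] (m : ℤ) : ℕ → K
  | 0 => 1
  | k + 1 => - cc K m k / (((k : K) + 1) * ((m : K) + k + 2))

noncomputable def PP (E F : M →ₗ[K] M) (m : ℤ) (N : ℕ) (w : M) : M :=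
  ∑ k ∈ Finset.range N, cc K m k • (F ^ k) ((E ^ k) w)

lemma PP_kills (E F : M →ₗ[K] M) (W : ℤ → Submodule K M)
    (hE : ∀ m u, u ∈ W m → E u ∈ W (m + 2))
    (hF : ∀ m u, u ∈ W m → F u ∈ W (m - 2))
    (hEF : ∀ m u, u ∈ W m → E (F u) - F (E u) = (m : K) • u) (m : ℤ) (hm : 0 ≤ m) (N : ℕ)
    (w : M) (hw : w ∈ W m) (hN : (E ^ (N + 1)) w = 0) : E (PP E F m (N + 1) w) = 0 := by
  have hEk : ∀ k : ℕ, (E ^ k) w ∈ W (m + 2 * k) := by
    intro k
    induction k with
    | zero => simpa using hw
    | succ k ih =>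
      rw [pow_succ', Module.End.mul_apply]
      have := hE _ _ ih
      have e : m + 2 * (k : ℤ) + 2 = m + 2 * ((k + 1 : ℕ) : ℤ) := by push_cast; ring
      rwa [e] at this
  -- telescoping
  have key : ∀ n : ℕ, E (PP E F m (n + 1) w) = cc K m n • (F ^ n) ((E ^ (n + 1)) w) := by
    intro n
    induction n with
    | zero => simp [PP, cc]
    | succ n ih =>
      unfold PP at ih ⊢
      rw [Finset.sum_range_succ, map_add, ih, map_smul]
      rw [comm_pow E F W hF hEF _ n _ (hEk (n + 1))]
      have e1 : E ((E ^ (n + 1)) w) = (E ^ (n + 1 + 1)) w := by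
        rw [pow_succ' E (n + 1), Module.End.mul_apply]
      rw [e1, smul_add, smul_smul]
      have hc : cc K m (n + 1) * (((n : K) + 1) * (((m + 2 * ((n + 1 : ℕ) : ℤ) : ℤ) : K) - n)) = - cc K m n := by
        rw [cc]
        have h1 : ((n : K) + 1) ≠ 0 := by exact_mod_cast Nat.succ_ne_zero n
        have h2 : ((m : K) + n + 2) ≠ 0 := by
          have : ((m + n + 2 : ℤ) : K) ≠ 0 := by
            have : (m + n + 2 : ℤ) ≠ 0 := by omega
            exact_mod_cast this
          push_cast at this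
          exact this
        push_cast
        have h3 : ((m : K) + 2 * ((n : K) + 1) - n) = (m : K) + n + 2 := by ring
        rw [h3]
        field_simp
      rw [hc, neg_smul]
      abel
  rw [key, hN, map_zero, smul_zero]

lemma PP_fix (E F : M →ₗ[K] M) (m : ℤ) (N : ℕ) (w : M) (h : E w = 0) :
    PP E F m (N + 1) w = w := by
  unfold PP
  rw [Finset.sum_range_succ']
  rw [Finset.sum_eq_zero]
  · simp [cc]
  · intro k _
    rw [pow_succ E k, Module.End.mul_apply, h, map_zero, map_zero, smul_zero]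

lemma PP_map {M' : Type*} [AddCommGroup M'] [Module K M'] (E F : M →ₗ[K] M) (E' F' : M' →ₗ[K] M')
    (φ : M →ₗ[K] M') (h1 : ∀ u, φ (E u) = E' (φ u)) (h2 : ∀ u, φ (F u) = F' (φ u)) (m : ℤ) (N : ℕ)
    (w : M) : φ (PP E F m N w) = PP E' F' m N (φ w) := by
  have a1 : ∀ k u, φ ((E ^ k) u) = (E' ^ k) (φ u) := by
    intro k u
    induction k with
    | zero => simp
    | succ k ih => rw [pow_succ' E, pow_succ' E', Module.End.mul_apply, Module.End.mul_apply, h1, ih]
  have a2 : ∀ k u, φ ((F ^ k) u) = (F' ^ k) (φ u) := by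
    intro k u
    induction k with
    | zero => simp
    | succ k ih => rw [pow_succ' F, pow_succ' F', Module.End.mul_apply, Module.End.mul_apply, h2, ih]
  unfold PP
  rw [map_sum]
  apply Finset.sum_congr rfl
  intro k _
  rw [map_smul, a2, a1]

lemma PP_mem (E F : M →ₗ[K] M) (W : ℤ → Submodule K M)
    (hE : ∀ m u, u ∈ W m → E u ∈ W (m + 2))
    (hF : ∀ m u, u ∈ W m → F u ∈ W (m - 2)) (m : ℤ) (N : ℕ)
    (w : M) (hw : w ∈ W m) : PP E F m N w ∈ W m := by
  have hEk : ∀ k : ℕ, (E ^ k) w ∈ W (m + 2 * k) := by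
    intro k
    induction k with
    | zero => simpa using hw
    | succ k ih =>
      rw [pow_succ', Module.End.mul_apply]
      have := hE _ _ ih
      have e : m + 2 * (k : ℤ) + 2 = m + 2 * ((k + 1 : ℕ) : ℤ) := by push_cast; ring
      rwa [e] at this
  have hFk : ∀ (k : ℕ) (m : ℤ) (u : M), u ∈ W m → (F ^ k) u ∈ W (m - 2 * k) := by
    intro k m u hu
    induction k with
    | zero => simpa using hu
    | succ k ih =>
      rw [pow_succ', Module.End.mul_apply]
      have := hF _ _ ih
      have e : m - 2 * (k : ℤ) - 2 = m - 2 * ((k + 1 : ℕ) : ℤ) := by push_cast; ring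
      rwa [e] at this
  unfold PP
  apply Submodule.sum_mem
  intro k _
  apply Submodule.smul_mem
  have := hFk k _ _ (hEk k)
  have e : m + 2 * (k : ℤ) - 2 * (k : ℤ) = m := by ring
  rwa [e] at this

/-- a vector of negative weight killed by `E` vanishes if `F` is nilpotent on it -/
lemma neg_zero (E F : M →ₗ[K] M) (W : ℤ → Submodule K M)
    (hF : ∀ m u, u ∈ W m → F u ∈ W (m - 2))
    (hEF : ∀ m u, u ∈ W m → E (F u) - F (E u) = (m : K) • u) (m : ℤ) (hm : m < 0) (w : M)
    (hw : w ∈ W m) (hEw : E w = 0) (N : ℕ) (hN : (F ^ N) w = 0) : w = 0 := by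
  induction N with
  | zero => simpa using hN
  | succ N ih =>
    apply ih
    have h1 := comm_pow E F W hF hEF m N w hw
    rw [hN, hEw, map_zero, map_zero, zero_add] at h1
    rcases smul_eq_zero.1 h1.symm with h2 | h2
    · exfalso
      rcases mul_eq_zero.1 h2 with h3 | h3
      · exact (by exact_mod_cast Nat.succ_ne_zero N : ((N : K) + 1) ≠ 0) h3
      · have : ((m - N : ℤ) : K) = 0 := by push_cast; exact h3
        have h4 : (m - N : ℤ) = 0 := by exact_mod_cast this
        omega
    · exact h2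

end proj

section lie

variable {K L : Type*} [Field K] [CharZero K] [LieRing L] [LieAlgebra K L]

/-- right bracket with a fixed element -/
def adR (x : L) : L →ₗ[K] L where
  toFun u := ⁅u, x⁆
  map_add' := by intro a b; simp
  map_smul' := by intro a b; simp

@[simp] lemma adR_apply (x u : L) : adR (K := K) x u = ⁅u, x⁆ := rfl

/-- bigraded pieces -/
def TT (K : Type*) {L : Type*} [Field K] [LieRing L] [LieAlgebra K L] (x y : L) :
    ℕ → ℤ → Submodule K L
  | 0, m => if m = 1 then Submodule.span K {x} else if m = -1 then Submodule.span K {y} else ⊥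
  | n + 1, m => TT K x y n m ⊔ (TT K x y n (m - 1)).map (adR x) ⊔ (TT K x y n (m + 1)).map (adR y)

variable (x y : L)

lemma TT_zero_one : TT K x y 0 1 = Submodule.span K {x} := by simp [TT]
lemma TT_zero_neg : TT K x y 0 (-1) = Submodule.span K {y} := by simp [TT]
lemma TT_zero_bot (m : ℤ) (h1 : m ≠ 1) (h2 : m ≠ -1) : TT K x y 0 m = ⊥ := by simp [TT, h1, h2]

lemma TT_succ (n : ℕ) (m : ℤ) : TT K x y (n + 1) m =
    TT K x y n m ⊔ (TT K x y n (m - 1)).map (adR x) ⊔ (TT K x y n (m + 1)).map (adR y) := rfl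

lemma mem_TT_succ (n : ℕ) (m : ℤ) (z : L) : z ∈ TT K x y (n + 1) m ↔
    ∃ t ∈ TT K x y n m, ∃ a ∈ TT K x y n (m - 1), ∃ b ∈ TT K x y n (m + 1),
      t + ⁅a, x⁆ + ⁅b, y⁆ = z := by
  rw [TT_succ, Submodule.mem_sup]
  constructor
  · rintro ⟨u, hu, v, hv, rfl⟩
    rw [Submodule.mem_sup] at hu
    obtain ⟨t, ht, w, hw, rfl⟩ := hu
    obtain ⟨a, ha, rfl⟩ := hw
    obtain ⟨b, hb, rfl⟩ := hv
    exact ⟨t, ht, a, ha, b, hb, rfl⟩
  · rintro ⟨t, ht, a, ha, b, hb, rfl⟩
    exact ⟨t + ⁅a, x⁆, Submodule.mem_sup.2 ⟨t, ht, ⁅a, x⁆, ⟨a, ha, rfl⟩, rfl⟩, ⁅b, y⁆, ⟨b, hb, rfl⟩, rfl⟩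

lemma TT_bot (n : ℕ) : ∀ m : ℤ, (n : ℤ) + 1 < m ∨ m < -((n : ℤ) + 1) → TT K x y n m = ⊥ := by
  induction n with
  | zero => intro m hm; apply TT_zero_bot <;> (simp only [Nat.cast_zero, zero_add] at hm; omega)
  | succ n ih =>
    intro m hm
    push_cast at hm
    rw [TT_succ, ih m (by omega), ih (m - 1) (by omega), ih (m + 1) (by omega)]
    simp

variable (e f : LieDerivation K L L) (hex : e x = 0) (hey : e y = x) (hfx : f x = y) (hfy : f y = 0)

include hex hey in
lemma e_mem (n : ℕ) : ∀ (m : ℤ) (u : L), u ∈ TT K x y n m → e u ∈ TT K x y n (m + 2) := by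
  induction n with
  | zero =>
    intro m u hu
    by_cases h1 : m = 1
    · subst h1
      rw [TT_zero_one, Submodule.mem_span_singleton] at hu
      obtain ⟨c, rfl⟩ := hu
      rw [map_smul, hex, smul_zero]
      exact Submodule.zero_mem _
    · by_cases h2 : m = -1
      · subst h2
        rw [TT_zero_neg, Submodule.mem_span_singleton] at hu
        obtain ⟨c, rfl⟩ := hu
        rw [map_smul, hey]
        have : (-1 : ℤ) + 2 = 1 := by norm_num
        rw [this, TT_zero_one]
        exact Submodule.smul_mem _ _ (Submodule.mem_span_singleton_self x)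
      · rw [TT_zero_bot x y m h1 h2, Submodule.mem_bot] at hu
        rw [hu, map_zero]
        exact Submodule.zero_mem _
  | succ n ih =>
    intro m u hu
    rw [mem_TT_succ] at hu ⊢
    obtain ⟨t, ht, a, ha, b, hb, rfl⟩ := hu
    refine ⟨e t, ih _ _ ht, e a + b, ?_, e b, ?_, ?_⟩
    · apply Submodule.add_mem
      · have := ih _ _ ha
        have e1 : m - 1 + 2 = m + 2 - 1 := by ring
        rwa [e1] at this
      · have e1 : m + 1 = m + 2 - 1 := by ring
        rwa [e1] at hb
    · have := ih _ _ hb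
      have e1 : m + 1 + 2 = m + 2 + 1 := by ring
      rwa [e1] at this
    · rw [map_add, map_add, LieDerivation.apply_lie_eq_add, LieDerivation.apply_lie_eq_add, hex, hey]
      simp
      abel

include hfx hfy in
lemma f_mem (n : ℕ) : ∀ (m : ℤ) (u : L), u ∈ TT K x y n m → f u ∈ TT K x y n (m - 2) := by
  induction n with
  | zero =>
    intro m u hu
    by_cases h1 : m = 1
    · subst h1
      rw [TT_zero_one, Submodule.mem_span_singleton] at hu
      obtain ⟨c, rfl⟩ := hu
      rw [map_smul, hfx]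
      have : (1 : ℤ) - 2 = -1 := by norm_num
      rw [this, TT_zero_neg]
      exact Submodule.smul_mem _ _ (Submodule.mem_span_singleton_self y)
    · by_cases h2 : m = -1
      · subst h2
        rw [TT_zero_neg, Submodule.mem_span_singleton] at hu
        obtain ⟨c, rfl⟩ := hu
        rw [map_smul, hfy, smul_zero]
        exact Submodule.zero_mem _
      · rw [TT_zero_bot x y m h1 h2, Submodule.mem_bot] at hu
        rw [hu, map_zero]
        exact Submodule.zero_mem _
  | succ n ih =>
    intro m u hu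
    rw [mem_TT_succ] at hu ⊢
    obtain ⟨t, ht, a, ha, b, hb, rfl⟩ := hu
    refine ⟨f t, ih _ _ ht, f a, ?_, f b + a, ?_, ?_⟩
    · have := ih _ _ ha
      have e1 : m - 1 - 2 = m - 2 - 1 := by ring
      rwa [e1] at this
    · apply Submodule.add_mem
      · have := ih _ _ hb
        have e1 : m + 1 - 2 = m - 2 + 1 := by ring
        rwa [e1] at this
      · have e1 : m - 1 = m - 2 + 1 := by ring
        rwa [e1] at ha
    · rw [map_add, map_add, LieDerivation.apply_lie_eq_add, LieDerivation.apply_lie_eq_add, hfx, hfy]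
      simp
      abel

include hex hey hfx hfy in
lemma ef_comm (n : ℕ) : ∀ (m : ℤ) (u : L), u ∈ TT K x y n m →
    e (f u) - f (e u) = (m : K) • u := by
  have hD : ∀ a b : L, e (f ⁅a, b⁆) - f (e ⁅a, b⁆)
      = ⁅e (f a) - f (e a), b⁆ + ⁅a, e (f b) - f (e b)⁆ := by
    intro a b
    simp only [LieDerivation.apply_lie_eq_add, map_add, sub_lie, lie_sub]
    abel
  induction n with
  | zero =>
    intro m u hu
    by_cases h1 : m = 1
    · subst h1
      rw [TT_zero_one, Submodule.mem_span_singleton] at hu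
      obtain ⟨c, rfl⟩ := hu
      simp only [map_smul, hex, hfx, hey, map_zero, smul_zero, sub_zero, Int.cast_one, one_smul]
    · by_cases h2 : m = -1
      · subst h2
        rw [TT_zero_neg, Submodule.mem_span_singleton] at hu
        obtain ⟨c, rfl⟩ := hu
        simp only [map_smul, hfy, hfx, hey, map_zero, smul_zero, zero_sub, Int.cast_neg, Int.cast_one, neg_smul, one_smul]
      · rw [TT_zero_bot x y m h1 h2, Submodule.mem_bot] at hu
        rw [hu]
        simp
  | succ n ih =>
    intro m u hu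
    rw [mem_TT_succ] at hu
    obtain ⟨t, ht, a, ha, b, hb, rfl⟩ := hu
    have h1 := ih _ _ ht
    have h2 := ih _ _ ha
    have h3 := ih _ _ hb
    have hx : e (f x) - f (e x) = x := by rw [hfx, hex, hey, map_zero, sub_zero]
    have hy : e (f y) - f (e y) = -y := by rw [hfy, hey, hfx, map_zero, zero_sub]
    have h4 := hD a x
    have h5 := hD b y
    rw [h2, hx] at h4
    rw [h3, hy] at h5
    have h6 : e (f (t + ⁅a, x⁆ + ⁅b, y⁆)) - f (e (t + ⁅a, x⁆ + ⁅b, y⁆))
        = (e (f t) - f (e t)) + (e (f ⁅a, x⁆) - f (e ⁅a, x⁆)) + (e (f ⁅b, y⁆) - f (e ⁅b, y⁆)) := by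
      simp only [map_add]
      abel
    rw [h6, h1, h4, h5]
    simp only [lie_neg, smul_add, Int.cast_sub, Int.cast_add, Int.cast_one, sub_smul, add_smul, one_smul, sub_lie, add_lie, smul_lie]
    abel


/-- triples -/
def EE : L × L × L →ₗ[K] L × L × L where
  toFun p := (e p.1, e p.2.1 + p.2.2, e p.2.2)
  map_add' := by
    intro a b
    simp only [Prod.fst_add, Prod.snd_add, map_add, Prod.mk_add_mk, Prod.mk.injEq, true_and, and_true]
    abel
  map_smul' := by
    intro a b
    simp

def FF : L × L × L →ₗ[K] L × L × L where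
  toFun p := (f p.1, f p.2.1, f p.2.2 + p.2.1)
  map_add' := by
    intro a b
    simp only [Prod.fst_add, Prod.snd_add, map_add, Prod.mk_add_mk, Prod.mk.injEq, true_and, and_true]
    abel
  map_smul' := by
    intro a b
    simp

def phi : L × L × L →ₗ[K] L where
  toFun p := p.1 + ⁅p.2.1, x⁆ + ⁅p.2.2, y⁆
  map_add' := by
    intro a b
    simp only [Prod.fst_add, Prod.snd_add, add_lie]
    abel
  map_smul' := by
    intro a b
    simp

def WW (K : Type*) {L : Type*} [Field K] [LieRing L] [LieAlgebra K L] (x y : L) (n : ℕ) (m : ℤ) :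
    Submodule K (L × L × L) :=
  (TT K x y n m).prod ((TT K x y n (m - 1)).prod (TT K x y n (m + 1)))

lemma mem_WW (n : ℕ) (m : ℤ) (p : L × L × L) : p ∈ WW K x y n m ↔
    p.1 ∈ TT K x y n m ∧ p.2.1 ∈ TT K x y n (m - 1) ∧ p.2.2 ∈ TT K x y n (m + 1) := by
  simp [WW, Submodule.mem_prod]

include hex hey in
lemma EE_mem (n : ℕ) (m : ℤ) (u : L × L × L) (hu : u ∈ WW K x y n m) :
    EE e u ∈ WW K x y n (m + 2) := by
  rw [mem_WW] at hu ⊢
  obtain ⟨h1, h2, h3⟩ := hu
  refine ⟨e_mem x y e hex hey n _ _ h1, ?_, ?_⟩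
  · apply Submodule.add_mem
    · have := e_mem x y e hex hey n _ _ h2
      have e1 : m - 1 + 2 = m + 2 - 1 := by ring
      rwa [e1] at this
    · have e1 : m + 1 = m + 2 - 1 := by ring
      rwa [e1] at h3
  · have := e_mem x y e hex hey n _ _ h3
    have e1 : m + 1 + 2 = m + 2 + 1 := by ring
    rwa [e1] at this

include hfx hfy in
lemma FF_mem (n : ℕ) (m : ℤ) (u : L × L × L) (hu : u ∈ WW K x y n m) :
    FF f u ∈ WW K x y n (m - 2) := by
  rw [mem_WW] at hu ⊢
  obtain ⟨h1, h2, h3⟩ := hu
  refine ⟨f_mem x y f hfx hfy n _ _ h1, ?_, ?_⟩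
  · have := f_mem x y f hfx hfy n _ _ h2
    have e1 : m - 1 - 2 = m - 2 - 1 := by ring
    rwa [e1] at this
  · apply Submodule.add_mem
    · have := f_mem x y f hfx hfy n _ _ h3
      have e1 : m + 1 - 2 = m - 2 + 1 := by ring
      rwa [e1] at this
    · have e1 : m - 1 = m - 2 + 1 := by ring
      rwa [e1] at h2

include hex hey hfx hfy in
lemma EF_comm (n : ℕ) (m : ℤ) (u : L × L × L) (hu : u ∈ WW K x y n m) :
    EE e (FF f u) - FF f (EE e u) = (m : K) • u := by
  rw [mem_WW] at hu
  obtain ⟨h1, h2, h3⟩ := hu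
  have c1 := ef_comm x y e f hex hey hfx hfy n _ _ h1
  have c2 := ef_comm x y e f hex hey hfx hfy n _ _ h2
  have c3 := ef_comm x y e f hex hey hfx hfy n _ _ h3
  obtain ⟨t, a, b⟩ := u
  simp only [EE, FF, LinearMap.coe_mk, AddHom.coe_mk, map_add, Prod.mk_sub_mk, Prod.smul_mk,
    Prod.mk.injEq] at c1 c2 c3 ⊢
  refine ⟨c1, ?_, ?_⟩
  · have : e (f a) + (f b + a) - (f (e a) + f b) = (e (f a) - f (e a)) + a := by abel
    rw [this, c2]
    push_cast
    rw [sub_smul, one_smul]
    abel
  · have : e (f b) + e a - (f (e b) + (e a + b)) = (e (f b) - f (e b)) - b := by abel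
    rw [this, c3]
    push_cast
    rw [add_smul, one_smul]
    abel

include hex hey hfx hfy in
lemma step (n : ℕ) (m : ℤ) (hm : 0 ≤ m) (z : L) (hz : z ∈ TT K x y (n + 1) m) (hez : e z = 0) :
    ∃ t ∈ TT K x y n m, ∃ a ∈ TT K x y n (m - 1), e t = 0 ∧ e (e a) = 0 ∧
      z = t + ⁅a, x⁆ - ⁅e a, y⁆ := by
  rw [mem_TT_succ] at hz
  obtain ⟨t, ht, a, ha, b, hb, hzz⟩ := hz
  have hw : (t, a, b) ∈ WW K x y n m := (mem_WW (K := K) x y n m _).2 ⟨ht, ha, hb⟩
  have hk : ∀ k : ℕ, ((EE e) ^ k) (t, a, b) ∈ WW K x y n (m + 2 * k) := by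
    intro k
    induction k with
    | zero => simpa using hw
    | succ k ih =>
      rw [pow_succ', Module.End.mul_apply]
      have := EE_mem x y e hex hey n _ _ ih
      have e1 : m + 2 * (k : ℤ) + 2 = m + 2 * ((k + 1 : ℕ) : ℤ) := by push_cast; ring
      rwa [e1] at this
  have hN : ((EE e) ^ (n + 1 + 1)) (t, a, b) = 0 := by
    have h1 := hk (n + 1 + 1)
    rw [mem_WW, TT_bot x y n (m + 2 * ((n + 1 + 1 : ℕ) : ℤ)) (by push_cast; omega),
      TT_bot x y n (m + 2 * ((n + 1 + 1 : ℕ) : ℤ) - 1) (by push_cast; omega),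
      TT_bot x y n (m + 2 * ((n + 1 + 1 : ℕ) : ℤ) + 1) (by push_cast; omega)] at h1
    simp only [Submodule.mem_bot] at h1
    exact Prod.ext h1.1 (Prod.ext h1.2.1 h1.2.2)
  have hkill := PP_kills (EE e) (FF f) (WW K x y n) (EE_mem x y e hex hey n)
    (FF_mem x y f hfx hfy n) (EF_comm x y e f hex hey hfx hfy n) m hm (n + 1) _ hw hN
  have hmem := PP_mem (EE e) (FF f) (WW K x y n) (EE_mem x y e hex hey n)
    (FF_mem x y f hfx hfy n) m (n + 1 + 1) _ hw
  have hphi := PP_map (EE e) (FF f) (e : L →ₗ[K] L) (f : L →ₗ[K] L) (phi x y) (by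
      intro u
      simp only [EE, phi, LinearMap.coe_mk, AddHom.coe_mk, LieDerivation.coeFn_coe, map_add,
        LieDerivation.apply_lie_eq_add, hex, hey, lie_zero, add_lie]
      abel) (by
      intro u
      simp only [FF, phi, LinearMap.coe_mk, AddHom.coe_mk, LieDerivation.coeFn_coe, map_add,
        LieDerivation.apply_lie_eq_add, hfx, hfy, lie_zero, add_lie]
      abel) m (n + 1 + 1) (t, a, b)
  have hpz : phi (K := K) x y (t, a, b) = z := by
    simp only [phi, LinearMap.coe_mk, AddHom.coe_mk]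
    exact hzz
  rw [hpz, PP_fix (e : L →ₗ[K] L) (f : L →ₗ[K] L) m (n + 1) z hez] at hphi
  set q := PP (EE e) (FF f) m (n + 1 + 1) (t, a, b) with hq
  rw [mem_WW] at hmem
  have hk2 : e q.1 = 0 ∧ e q.2.1 + q.2.2 = 0 ∧ e q.2.2 = 0 := by
    have h := hkill
    simp only [EE, LinearMap.coe_mk, AddHom.coe_mk, Prod.mk_eq_zero] at h
    exact h
  have hq2 : q.2.2 = - e q.2.1 := by
    rw [eq_neg_iff_add_eq_zero, add_comm]; exact hk2.2.1
  refine ⟨q.1, hmem.1, q.2.1, hmem.2.1, hk2.1, ?_, ?_⟩
  · have := hk2.2.2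
    rw [hq2, map_neg, neg_eq_zero] at this
    exact this
  · rw [← hphi]
    simp only [phi, LinearMap.coe_mk, AddHom.coe_mk]
    rw [hq2, neg_lie, sub_eq_add_neg]


include hex hey hfx hfy in
lemma neg_const (n : ℕ) (m : ℤ) (hm : m < 0) (z : L) (hz : z ∈ TT K x y n m) (hez : e z = 0) :
    z = 0 := by
  have hk : ∀ k : ℕ, ((f : L →ₗ[K] L) ^ k) z ∈ TT K x y n (m - 2 * k) := by
    intro k
    induction k with
    | zero => simpa using hz
    | succ k ih =>
      rw [pow_succ', Module.End.mul_apply]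
      have := f_mem x y f hfx hfy n _ _ ih
      have e1 : m - 2 * (k : ℤ) - 2 = m - 2 * ((k + 1 : ℕ) : ℤ) := by push_cast; ring
      rwa [e1] at this
  have h1 := hk (n + 1)
  rw [TT_bot x y n (m - 2 * ((n + 1 : ℕ) : ℤ)) (by push_cast; omega), Submodule.mem_bot] at h1
  exact neg_zero (e : L →ₗ[K] L) (f : L →ₗ[K] L) (TT K x y n) (f_mem x y f hfx hfy n)
    (ef_comm x y e f hex hey hfx hfy n) m hm z hz hez (n + 1) h1

/-- brackets of the second kind -/
def T2 (K : Type*) {L : Type*} [Field K] [LieRing L] [LieAlgebra K L] (e : LieDerivation K L L) :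
    Set L :=
  {z | e z = 0 ∧ ∃ (g h : L) (r : ℕ) (α : K), 1 ≤ r ∧ (e^[r - 1]) g = α • h ∧ α • h ≠ 0 ∧ z = ⁅g, h⁆}

lemma T2_basic (e : LieDerivation K L L) (g : L) (h1 : e g ≠ 0) (h2 : e (e g) = 0) :
    ⁅g, e g⁆ ∈ T2 K e := by
  refine ⟨?_, g, e g, 2, 1, by norm_num, ?_, ?_, rfl⟩
  · rw [LieDerivation.apply_lie_eq_add, h2, lie_self, lie_zero, add_zero]
  · simp
  · simpa using h1

include hex hey hfx hfy in
lemma main_TT (U : LieSubalgebra K L) (hx : x ∈ U) (hU : T2 K e ⊆ (U : Set L)) (n : ℕ) :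
    ∀ (m : ℤ) (z : L), z ∈ TT K x y n m → e z = 0 → z ∈ U := by
  induction n with
  | zero =>
    intro m z hz hez
    by_cases hm : m < 0
    · rw [neg_const x y e f hex hey hfx hfy 0 m hm z hz hez]
      exact U.zero_mem
    · by_cases h1 : m = 1
      · subst h1
        rw [TT_zero_one, Submodule.mem_span_singleton] at hz
        obtain ⟨c, rfl⟩ := hz
        exact U.smul_mem c hx
      · rw [TT_zero_bot x y m h1 (by omega), Submodule.mem_bot] at hz
        rw [hz]
        exact U.zero_mem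
  | succ n ih =>
    intro m z hz hez
    by_cases hm : m < 0
    · rw [neg_const x y e f hex hey hfx hfy (n + 1) m hm z hz hez]
      exact U.zero_mem
    · obtain ⟨t, ht, a, ha, het, hea, rfl⟩ := step x y e f hex hey hfx hfy n m (by omega) z hz hez
      have h1 : t ∈ U := ih m t ht het
      by_cases hc : e a = 0
      · rw [hc, zero_lie, sub_zero]
        exact U.add_mem h1 (U.lie_mem (ih _ a ha hc) hx)
      · have h2 : ⁅a, e a⁆ ∈ U := hU (T2_basic e a hc hea)
        have h3 : ⁅y, x⁆ ∈ U := by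
          by_cases hx0 : x = 0
          · rw [hx0, lie_zero]; exact U.zero_mem
          · have := hU (T2_basic (K := K) e y (by rw [hey]; exact hx0) (by rw [hey, hex]))
            rwa [hey] at this
        have h4 : ⁅a + y, e a + x⁆ ∈ U := by
          have e1 : e (a + y) = e a + x := by rw [map_add, hey]
          by_cases h0 : e a + x = 0
          · rw [h0, lie_zero]; exact U.zero_mem
          · have := hU (T2_basic (K := K) e (a + y) (by rw [e1]; exact h0)
              (by rw [e1, map_add, hea, hex, add_zero]))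
            rwa [e1] at this
        have h5 : t + ⁅a, x⁆ - ⁅e a, y⁆ = t + (⁅a + y, e a + x⁆ - ⁅a, e a⁆ - ⁅y, x⁆) := by
          rw [add_lie, lie_add, lie_add, ← lie_skew y (e a)]
          abel
        rw [h5]
        exact U.add_mem h1 (U.sub_mem (U.sub_mem h4 h2) h3)

lemma TT_mono (n : ℕ) (m : ℤ) : TT K x y n m ≤ TT K x y (n + 1) m := by
  rw [TT_succ]
  exact le_sup_of_le_left le_sup_left

/-- the pieces exhaust the Lie algebra generated by `x` and `y` -/
lemma TT_all (hgen : LieSubalgebra.lieSpan K L {x, y} = ⊤) (z : L) :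
    z ∈ ⨆ n, ⨆ m, TT K x y n m := by
  set S : Submodule K L := ⨆ n, ⨆ m, TT K x y n m with hS
  have hle : ∀ n m, TT K x y n m ≤ S := fun n m => le_trans (le_iSup (fun m => TT K x y n m) m) (le_iSup (fun n => ⨆ m, TT K x y n m) n)
  have hSx : ∀ u ∈ S, ⁅u, x⁆ ∈ S := by
    intro u hu
    have : S ≤ S.comap (adR x) := by
      conv_lhs => rw [hS]
      refine iSup_le fun n => iSup_le fun m => ?_
      intro v hv
      rw [Submodule.mem_comap]
      apply hle (n + 1) (m + 1)
      rw [mem_TT_succ]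
      refine ⟨0, Submodule.zero_mem _, v, ?_, 0, Submodule.zero_mem _, ?_⟩
      · rwa [add_sub_cancel_right]
      · simp
    exact this hu
  have hSy : ∀ u ∈ S, ⁅u, y⁆ ∈ S := by
    intro u hu
    have : S ≤ S.comap (adR y) := by
      conv_lhs => rw [hS]
      refine iSup_le fun n => iSup_le fun m => ?_
      intro v hv
      rw [Submodule.mem_comap]
      apply hle (n + 1) (m - 1)
      rw [mem_TT_succ]
      refine ⟨0, Submodule.zero_mem _, 0, Submodule.zero_mem _, v, ?_, ?_⟩
      · rwa [sub_add_cancel]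
      · simp
    exact this hu
  -- the elements acting into S form a Lie subalgebra
  let N : LieSubalgebra K L :=
    { carrier := {u | ∀ s ∈ S, ⁅s, u⁆ ∈ S}
      add_mem' := by
        intro a b ha hb s hs
        rw [lie_add]
        exact S.add_mem (ha s hs) (hb s hs)
      zero_mem' := by
        intro s _
        rw [lie_zero]
        exact S.zero_mem
      smul_mem' := by
        intro c a ha s hs
        rw [lie_smul]
        exact S.smul_mem c (ha s hs)
      lie_mem' := by
        intro a b ha hb s hs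
        rw [leibniz_lie]
        apply S.add_mem (hb _ (ha s hs))
        rw [← lie_skew]
        exact S.neg_mem (ha _ (hb s hs)) }
  have hN : N = ⊤ := by
    rw [← top_le_iff, ← hgen, LieSubalgebra.lieSpan_le]
    intro u hu
    rcases hu with rfl | hu
    · exact hSx
    · rw [Set.mem_singleton_iff] at hu
      rw [hu]
      exact hSy
  have hall : ∀ u s : L, s ∈ S → ⁅s, u⁆ ∈ S := by
    intro u s hs
    have : u ∈ N := by rw [hN]; exact LieSubalgebra.mem_top u
    exact this s hs
  let S' : LieSubalgebra K L :=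
    { S with
      lie_mem' := by
        intro a b ha _
        exact hall b a ha }
  have hS' : S' = ⊤ := by
    rw [← top_le_iff, ← hgen, LieSubalgebra.lieSpan_le]
    intro u hu
    rcases hu with rfl | hu
    · apply hle 0 1
      rw [TT_zero_one]
      exact Submodule.mem_span_singleton_self _
    · rw [Set.mem_singleton_iff] at hu
      rw [hu]
      apply hle 0 (-1)
      rw [TT_zero_neg]
      exact Submodule.mem_span_singleton_self _
  have : z ∈ S' := by rw [hS']; exact LieSubalgebra.mem_top z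
  exact this

include hex hey hfx hfy in
theorem main (hgen : LieSubalgebra.lieSpan K L {x, y} = ⊤) (U : LieSubalgebra K L) (hx : x ∈ U)
    (hU : T2 K e ⊆ (U : Set L)) (z : L) (hez : e z = 0) : z ∈ U := by
  have hz := TT_all x y (K := K) hgen z
  rw [Submodule.mem_iSup_of_directed] at hz
  · obtain ⟨n, hz⟩ := hz
    rw [Submodule.mem_iSup_iff_exists_finsupp] at hz
    obtain ⟨g, hg, hgz⟩ := hz
    have hsum : ∑ i ∈ g.support, e (g i) = 0 := by
      rw [← hez, ← hgz, Finsupp.sum, map_sum]
    have hw : ∀ i, (⁅e, f⁆ : LieDerivation K L L) (e (g i)) = ((i + 2 : ℤ) : K) • e (g i) := by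
      intro i
      rw [LieDerivation.lie_apply]
      exact ef_comm x y e f hex hey hfx hfy n _ _ (e_mem x y e hex hey n _ _ (hg i))
    have h0 : ∀ i ∈ g.support, e (g i) = 0 := by
      have hsum' : ∑ i ∈ g.support.map (Equiv.addRight (2 : ℤ)).toEmbedding, e (g (i - 2)) = 0 := by
        rw [Finset.sum_map]
        simpa using hsum
      have := indep ((⁅e, f⁆ : LieDerivation K L L) : L →ₗ[K] L)
        (g.support.map (Equiv.addRight (2 : ℤ)).toEmbedding) (fun i => e (g (i - 2))) (by
          intro i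
          have := hw (i - 2)
          rw [sub_add_cancel] at this
          exact this) hsum'
      intro i hi
      have h1 := this (i + 2) (by
        rw [Finset.mem_map]
        exact ⟨i, hi, rfl⟩)
      simpa using h1
    rw [← hgz, Finsupp.sum]
    apply U.toSubmodule.sum_mem
    intro i hi
    exact main_TT x y e f hex hey hfx hfy U hx hU n i (g i) (hg i) (h0 i hi)
  · apply Monotone.directed_le
    apply monotone_nat_of_le_succ
    intro n
    exact iSup_mono fun m => TT_mono x y n m

end lie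


section free

variable (K : Type*) [Field K]

/-- the Lie algebra of pairs `a + eps b`, `eps ^ 2 = 0` -/
def Dbl (L : Type*) : Type _ := L × L

variable {L : Type*} [LieRing L] [LieAlgebra K L]

instance : AddCommGroup (Dbl L) := inferInstanceAs (AddCommGroup (L × L))
instance : Module K (Dbl L) := inferInstanceAs (Module K (L × L))

instance : Bracket (Dbl L) (Dbl L) := ⟨fun p q => (⁅p.1, q.1⁆, ⁅p.1, q.2⁆ + ⁅p.2, q.1⁆)⟩

lemma Dbl.br (p q : Dbl L) : ⁅p, q⁆ = ((⁅p.1, q.1⁆, ⁅p.1, q.2⁆ + ⁅p.2, q.1⁆) : L × L) := rfl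
lemma Dbl.fst_add (p q : Dbl L) : (p + q).1 = p.1 + q.1 := rfl
lemma Dbl.snd_add (p q : Dbl L) : (p + q).2 = p.2 + q.2 := rfl
lemma Dbl.ext' {p q : Dbl L} (h1 : p.1 = q.1) (h2 : p.2 = q.2) : p = q := Prod.ext h1 h2
lemma Dbl.br1 (p q : Dbl L) : (⁅p, q⁆ : Dbl L).1 = ⁅p.1, q.1⁆ := rfl
lemma Dbl.br2 (p q : Dbl L) : (⁅p, q⁆ : Dbl L).2 = ⁅p.1, q.2⁆ + ⁅p.2, q.1⁆ := rfl
lemma Dbl.zero1 : (0 : Dbl L).1 = 0 := rfl
lemma Dbl.zero2 : (0 : Dbl L).2 = 0 := rfl
lemma Dbl.smul1 (c : K) (p : Dbl L) : (c • p).1 = c • p.1 := rfl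
lemma Dbl.smul2 (c : K) (p : Dbl L) : (c • p).2 = c • p.2 := rfl

instance : LieRing (Dbl L) where
  add_lie p q r := by
    apply Dbl.ext'
    · simp only [Dbl.br1, Dbl.fst_add, add_lie]
    · simp only [Dbl.br2, Dbl.fst_add, Dbl.snd_add, add_lie]
      abel
  lie_add p q r := by
    apply Dbl.ext'
    · simp only [Dbl.br1, Dbl.fst_add, lie_add]
    · simp only [Dbl.br2, Dbl.fst_add, Dbl.snd_add, lie_add]
      abel
  lie_self p := by
    apply Dbl.ext'
    · simp only [Dbl.br1, Dbl.zero1, lie_self]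
    · simp only [Dbl.br2, Dbl.zero2]
      rw [← lie_skew p.1 p.2]
      abel
  leibniz_lie p q r := by
    apply Dbl.ext'
    · simp only [Dbl.br1, Dbl.fst_add]
      exact leibniz_lie _ _ _
    · simp only [Dbl.br1, Dbl.br2, Dbl.snd_add, lie_add, add_lie]
      rw [leibniz_lie p.1 q.1 r.2, leibniz_lie p.1 q.2 r.1, leibniz_lie p.2 q.1 r.1]
      abel

instance : LieAlgebra K (Dbl L) where
  lie_smul c p q := by
    apply Dbl.ext'
    · simp only [Dbl.br1, Dbl.smul1, lie_smul]
    · simp only [Dbl.br2, Dbl.smul1, Dbl.smul2, lie_smul, smul_add]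

/-- first projection -/
def Dbl.proj : Dbl L →ₗ⁅K⁆ L where
  toFun p := p.1
  map_add' _ _ := rfl
  map_smul' _ _ := rfl
  map_lie' := rfl

/-- a derivation of the free Lie algebra with prescribed values on the generators -/
theorem exists_derivation {X : Type*} (v : X → FreeLieAlgebra K X) :
    ∃ δ : LieDerivation K (FreeLieAlgebra K X) (FreeLieAlgebra K X),
      ∀ i, δ (FreeLieAlgebra.of K i) = v i := by
  let g : X → Dbl (FreeLieAlgebra K X) := fun i => (FreeLieAlgebra.of K i, v i)
  let F := FreeLieAlgebra.lift K g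
  have h1 : ∀ u, (F u).1 = u := by
    have : (Dbl.proj K).comp F = LieHom.id := by
      apply FreeLieAlgebra.hom_ext
      intro i
      simp only [LieHom.comp_apply, LieHom.id_apply]
      rw [FreeLieAlgebra.lift_of_apply]
      rfl
    intro u
    exact LieHom.congr_fun this u
  refine ⟨{ toFun := fun u => (F u).2
            map_add' := by
              intro a b
              rw [map_add]; rfl
            map_smul' := by
              intro c a
              rw [map_smul]; rfl
            leibniz' := by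
              intro a b
              simp only [LinearMap.coe_mk, AddHom.coe_mk]
              rw [LieHom.map_lie, Dbl.br2, h1, h1, ← lie_skew b, sub_neg_eq_add] }, ?_⟩
  intro i
  change (F (FreeLieAlgebra.of K i)).2 = v i
  rw [FreeLieAlgebra.lift_of_apply]

theorem lieSpan_of {X : Type*} :
    LieSubalgebra.lieSpan K (FreeLieAlgebra K X) (Set.range (FreeLieAlgebra.of K)) = ⊤ := by
  rw [← top_le_iff]
  intro u _
  let S := LieSubalgebra.lieSpan K (FreeLieAlgebra K X) (Set.range (FreeLieAlgebra.of K))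
  let g : X → S := fun i => ⟨FreeLieAlgebra.of K i, LieSubalgebra.subset_lieSpan ⟨i, rfl⟩⟩
  have : (S.incl).comp (FreeLieAlgebra.lift K g) = LieHom.id := by
    apply FreeLieAlgebra.hom_ext
    intro i
    simp only [LieHom.comp_apply, LieHom.id_apply]
    rw [FreeLieAlgebra.lift_of_apply]
    rfl
  have h := LieHom.congr_fun this u
  rw [LieHom.comp_apply, LieHom.id_apply] at h
  rw [← h]
  exact (FreeLieAlgebra.lift K g u).2

end free

section final

variable (K : Type*) [Field K] [CharZero K]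

theorem final (δ : LieDerivation K (FreeLieAlgebra K (Fin 2)) (FreeLieAlgebra K (Fin 2)))
    (hx : δ (FreeLieAlgebra.of K 0) = 0) (hy : δ (FreeLieAlgebra.of K 1) = FreeLieAlgebra.of K 0)
    (P : Set (FreeLieAlgebra K (Fin 2))) (hP : ∀ p ∈ P, δ p = 0) (z : FreeLieAlgebra K (Fin 2)) :
    δ z = 0 ↔ z ∈ LieSubalgebra.lieSpan K (FreeLieAlgebra K (Fin 2))
      ({FreeLieAlgebra.of K 0} ∪ T2 K δ ∪ P) := by
  constructor
  · intro hz
    obtain ⟨f, hf⟩ := exists_derivation K (X := Fin 2) ![FreeLieAlgebra.of K 1, 0]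
    have hf0 : f (FreeLieAlgebra.of K 0) = FreeLieAlgebra.of K 1 := hf 0
    have hf1 : f (FreeLieAlgebra.of K 1) = 0 := hf 1
    have hgen : LieSubalgebra.lieSpan K (FreeLieAlgebra K (Fin 2))
        {FreeLieAlgebra.of K 0, FreeLieAlgebra.of K 1} = ⊤ := by
      rw [← lieSpan_of K]
      congr 1
      ext u
      simp only [Set.mem_insert_iff, Set.mem_singleton_iff, Set.mem_range, Fin.exists_fin_two]
      constructor
      · rintro (rfl | rfl)
        · exact Or.inl rfl
        · exact Or.inr rfl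
      · rintro (h | h)
        · exact Or.inl h.symm
        · exact Or.inr h.symm
    refine main (FreeLieAlgebra.of K 0) (FreeLieAlgebra.of K 1) δ f hx hy hf0 hf1 hgen _ ?_ ?_ z hz
    · exact LieSubalgebra.subset_lieSpan (Or.inl (Or.inl rfl))
    · intro u hu
      exact LieSubalgebra.subset_lieSpan (Or.inl (Or.inr hu))
  · intro hz
    let N : LieSubalgebra K (FreeLieAlgebra K (Fin 2)) :=
      { carrier := {u | δ u = 0}
        add_mem' := by
          intro a b ha hb
          simp only [Set.mem_ofPred_eq] at ha hb ⊢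
          rw [map_add, ha, hb, add_zero]
        zero_mem' := map_zero δ
        smul_mem' := by
          intro c a ha
          simp only [Set.mem_ofPred_eq] at ha ⊢
          rw [map_smul, ha, smul_zero]
        lie_mem' := by
          intro a b ha hb
          have ha' : δ a = 0 := ha
          have hb' : δ b = 0 := hb
          change δ ⁅a, b⁆ = 0
          rw [LieDerivation.apply_lie_eq_add, ha', hb', zero_lie, lie_zero, add_zero] }
    have : LieSubalgebra.lieSpan K (FreeLieAlgebra K (Fin 2))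
      ({FreeLieAlgebra.of K 0} ∪ T2 K δ ∪ P) ≤ N := by
      rw [LieSubalgebra.lieSpan_le]
      rintro u ((hu | hu) | hu)
      · rw [Set.mem_singleton_iff] at hu
        rw [hu]
        exact hx
      · exact hu.1
      · exact hP u hu
    exact this hz

end final

end Pool.R874.Weitz
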